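import Mathlib

/-! Baire category tools (the first part is copied from the start file H566W/Ana). -/

set_option autoImplicit false

namespace Pool.Agent.H425Z.Cat

open Set TopologicalSpace Filter Topology MeasureTheory

variable {X Y : Type*} [TopologicalSpace X] [TopologicalSpace Y]

/-- points at which a set is locally nonmeagre -/
def Dn (A : Set X) : Set X := {x | ∀ U, IsOpen U → x ∈ U → ¬ IsMeagre (A ∩ U)}

theorem Dn_closed (A : Set X) : IsClosed (Dn A) := by
  rw [← isOpen_compl_iff, isOpen_iff_forall_mem_open]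
  intro x hx
  have hx' : ∃ U, IsOpen U ∧ x ∈ U ∧ IsMeagre (A ∩ U) := by
    by_contra hcon
    push Not at hcon
    exact hx hcon
  obtain ⟨U, hU, hxU, hm⟩ := hx'
  exact ⟨U, fun y hy hyD => hyD U hU hy hm, hU, hxU⟩

theorem Dn_sub_closure (A : Set X) : Dn A ⊆ closure A := by
  intro x hx
  rw [mem_closure_iff]
  intro U hU hxU
  obtain ⟨y, hy1, hy2⟩ := nonempty_of_not_isMeagre (hx U hU hxU)
  exact ⟨y, hy2, hy1⟩

theorem sdiff_Dn [SecondCountableTopology X] (A : Set X) : IsMeagre (A \ Dn A) := by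
  have h1 : A \ Dn A ⊆ ⋃ U ∈ {U ∈ countableBasis X | IsMeagre (A ∩ U)}, A ∩ U := by
    rintro x ⟨hxA, hx⟩
    have hx' : ∃ U, IsOpen U ∧ x ∈ U ∧ IsMeagre (A ∩ U) := by
      by_contra hcon
      push Not at hcon
      exact hx hcon
    obtain ⟨V, hV, hxV, hm⟩ := hx'
    obtain ⟨U, hU, hxU, hUV⟩ := (isBasis_countableBasis X).exists_subset_of_mem_open hxV hV
    simp only [mem_iUnion]
    exact ⟨U, ⟨hU, hm.mono (inter_subset_inter_right _ hUV)⟩, hxA, hxU⟩
  refine IsMeagre.mono h1 (isMeagre_biUnion ?_ fun U hU => hU.2)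
  exact (countable_countableBasis X).mono fun U hU => hU.1

theorem Dn_step [SecondCountableTopology X] (A : Set X) (B : ℕ → Set X) (h : A ⊆ ⋃ i, B i) :
    IsMeagre (Dn A \ ⋃ i, Dn (B i)) := by
  by_contra hnm
  set G := Dn A \ ⋃ i, Dn (B i) with hG
  have hV : (interior (closure G)).Nonempty := by
    by_contra hne
    exact hnm (IsNowhereDense.isMeagre (Set.not_nonempty_iff_eq_empty.1 hne))
  have hVD : interior (closure G) ⊆ Dn A :=
    interior_subset.trans ((closure_mono sdiff_subset).trans (Dn_closed A).closure_subset)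
  obtain ⟨x, hx⟩ := hV
  apply hVD hx (interior (closure G)) isOpen_interior hx
  have h1 : ∀ i, IsMeagre (B i ∩ interior (closure G)) := by
    intro i
    have h2 : B i ∩ interior (closure G) ⊆ (B i \ Dn (B i)) ∪ (Dn (B i) ∩ interior (closure G)) := by
      rintro y ⟨hy1, hy2⟩
      by_cases hy : y ∈ Dn (B i)
      · exact Or.inr ⟨hy, hy2⟩
      · exact Or.inl ⟨hy1, hy⟩
    refine IsMeagre.mono h2 ((sdiff_Dn (B i)).union (IsNowhereDense.isMeagre ?_))
    by_contra hne
    obtain ⟨y, hy⟩ := Set.nonempty_iff_ne_empty.2 hne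
    set W := interior (closure (Dn (B i) ∩ interior (closure G))) with hW
    obtain ⟨z, hzW, hz1, hz2⟩ := mem_closure_iff.1 (interior_subset hy) W isOpen_interior hy
    obtain ⟨w, ⟨hwW, hwV⟩, hwG⟩ := mem_closure_iff.1 (interior_subset hz2)
      (W ∩ interior (closure G)) (isOpen_interior.inter isOpen_interior) ⟨hzW, hz2⟩
    have h3 : w ∈ Dn (B i) := by
      have h4 : closure (Dn (B i) ∩ interior (closure G)) ⊆ Dn (B i) :=
        (closure_mono inter_subset_left).trans (Dn_closed _).closure_subset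
      exact h4 (interior_subset hwW)
    exact hwG.2 (mem_iUnion.2 ⟨i, h3⟩)
  refine IsMeagre.mono ?_ (isMeagre_iUnion h1)
  rintro y ⟨hy1, hy2⟩
  obtain ⟨i, hi⟩ := mem_iUnion.1 (h hy1)
  exact mem_iUnion.2 ⟨i, hi, hy2⟩

/-- cylinders -/
def cyl (s : List ℕ) : Set (ℕ → ℕ) := {z | (List.range s.length).map z = s}

theorem cyl_sub (s : List ℕ) : cyl s ⊆ ⋃ k, cyl (s ++ [k]) := by
  intro z hz
  have hz : (List.range s.length).map z = s := hz
  refine mem_iUnion.2 ⟨z s.length, ?_⟩
  show (List.range (s ++ [z s.length]).length).map z = s ++ [z s.length]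
  rw [List.length_append, List.length_singleton, List.range_succ, List.map_append, hz]
  rfl

theorem analytic_bp [SecondCountableTopology X] [T2Space X] {f : (ℕ → ℕ) → X}
    (hf : Continuous f) : IsMeagre (Dn (range f) \ range f) := by
  have hN : IsMeagre (⋃ s : List ℕ, (Dn (f '' cyl s) \ ⋃ k, Dn (f '' cyl (s ++ [k])))) := by
    refine isMeagre_iUnion fun s => Dn_step _ _ ?_
    rw [← image_iUnion]
    exact image_mono (cyl_sub s)
  refine IsMeagre.mono ?_ hN
  rintro x ⟨hx, hxr⟩
  by_contra hxN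
  have hstep : ∀ s : List ℕ, x ∈ Dn (f '' cyl s) → ∃ k, x ∈ Dn (f '' cyl (s ++ [k])) := by
    intro s hs
    by_contra hcon
    push Not at hcon
    exact hxN (mem_iUnion.2 ⟨s, hs, fun h => by
      obtain ⟨k, hk⟩ := mem_iUnion.1 h
      exact hcon k hk⟩)
  have h0 : x ∈ Dn (f '' cyl []) := by
    have : f '' cyl [] = range f := by
      rw [← image_univ]
      congr 1
      exact eq_univ_of_forall fun z => rfl
    rw [this]; exact hx
  let S : ℕ → {s : List ℕ // x ∈ Dn (f '' cyl s)} := fun n =>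
    Nat.rec ⟨[], h0⟩ (fun _ s => ⟨s.1 ++ [(hstep s.1 s.2).choose], (hstep s.1 s.2).choose_spec⟩) n
  let z : ℕ → ℕ := fun n => (hstep (S n).1 (S n).2).choose
  have hS : ∀ n, (S n).1 = (List.range n).map z := by
    intro n
    induction n with
    | zero => rfl
    | succ n ih =>
      rw [List.range_succ, List.map_append, ← ih]
      rfl
  apply hxr
  refine ⟨z, ?_⟩
  by_contra hne
  obtain ⟨V, U, hV, hU, hzV, hxU, hd⟩ := t2_separation hne
  have hfV : IsOpen (f ⁻¹' V) := hV.preimage hf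
  obtain ⟨I, u, hu1, hu2⟩ := isOpen_pi_iff.1 hfV z hzV
  set n := I.sup (fun i => i + 1) with hn
  have h1 : x ∈ Dn (f '' cyl ((List.range n).map z)) := by
    rw [← hS]; exact (S n).2
  obtain ⟨y, hyU, w, hw, hwy⟩ := mem_closure_iff.1 (Dn_sub_closure _ h1) U hU hxU
  have hw' : (List.range ((List.range n).map z).length).map w = (List.range n).map z := hw
  rw [List.length_map, List.length_range] at hw'
  have hwz : ∀ i < n, w i = z i := by
    intro i hi
    have := List.map_inj_left.1 hw' i (List.mem_range.2 hi)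
    exact this
  have hwV : w ∈ f ⁻¹' V := by
    apply hu2
    intro i hi
    have : i < n := lt_of_lt_of_le (Nat.lt_succ_self i) (Finset.le_sup (f := fun i => i + 1) hi)
    rw [hwz i this]
    exact (hu1 i hi).2
  exact (disjoint_left.1 hd) hwV (hwy ▸ hyU)

/-- the Kuratowski-Ulam theorem for meagre sets -/
theorem ku [SecondCountableTopology Y] {M : Set (X × Y)} (hM : IsMeagre M) :
    ∀ᶠ x in residual X, IsMeagre {y | (x, y) ∈ M} := by
  obtain ⟨S, hSo, hSd, hSc, hSM⟩ := mem_residual_iff.1 hM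
  have key : ∀ t ∈ S, ∀ᶠ x in residual X, Dense {y | (x, y) ∈ t} := by
    intro t ht
    have h1 : ∀ V ∈ countableBasis Y, ∀ᶠ x in residual X, V.Nonempty → ∃ y ∈ V, (x, y) ∈ t := by
      intro V hV
      by_cases hne : V.Nonempty
      swap
      · exact Filter.Eventually.of_forall fun x h => absurd h hne
      have h2 : {x | ∃ y ∈ V, (x, y) ∈ t} = Prod.fst '' (t ∩ (univ ×ˢ V)) := by
        ext x
        constructor
        · rintro ⟨y, hy, hxy⟩
          exact ⟨(x, y), ⟨hxy, trivial, hy⟩, rfl⟩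
        · rintro ⟨⟨x', y⟩, ⟨h3, -, h4⟩, rfl⟩
          exact ⟨y, h4, h3⟩
      have hVo := isOpen_of_mem_countableBasis hV
      have h3 : {x | ∃ y ∈ V, (x, y) ∈ t} ∈ residual X := by
        apply residual_of_dense_open
        · rw [h2]
          exact isOpenMap_fst _ ((hSo t ht).inter (isOpen_univ.prod hVo))
        · intro x
          rw [mem_closure_iff]
          intro U hU hxU
          obtain ⟨y, hy⟩ := hne
          obtain ⟨⟨x', y'⟩, ⟨h4, h5⟩, h6⟩ := mem_closure_iff.1 (hSd t ht (x, y)) (U ×ˢ V)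
            (hU.prod hVo) ⟨hxU, hy⟩
          exact ⟨x', h4, y', h5, h6⟩
      filter_upwards [h3] with x hx _
      exact hx
    have h2 := (eventually_countable_ball (countable_countableBasis Y)).2 h1
    filter_upwards [h2] with x hx
    rw [(isBasis_countableBasis Y).dense_iff]
    intro V hV hne
    obtain ⟨y, hy1, hy2⟩ := hx V hV hne
    exact ⟨y, hy1, hy2⟩
  have h1 := (eventually_countable_ball hSc).2 key
  filter_upwards [h1] with x hx
  refine mem_residual_iff.2 ⟨(fun t => {y | (x, y) ∈ t}) '' S, ?_, ?_, hSc.image _, ?_⟩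
  · rintro _ ⟨t, ht, rfl⟩
    exact (hSo t ht).preimage (Continuous.prodMk_right x)
  · rintro _ ⟨t, ht, rfl⟩
    exact hx t ht
  · intro y hy hyM
    refine hSM (fun t ht => ?_) hyM
    exact hy _ ⟨t, ht, rfl⟩

theorem analytic_local [SecondCountableTopology X] [T2Space X] {B O : Set X}
    (hB : AnalyticSet B) (hO : IsOpen O) (h : ¬ IsMeagre (B ∩ O)) :
    ∃ W, IsOpen W ∧ W.Nonempty ∧ W ⊆ O ∧ IsMeagre (W \ B) := by
  rw [AnalyticSet] at hB
  rcases hB with rfl | ⟨f, hf, rfl⟩
  · exact absurd (by rw [empty_inter]; exact IsMeagre.empty) h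
  refine ⟨interior (Dn (range f)) ∩ O, isOpen_interior.inter hO, ?_, inter_subset_right, ?_⟩
  · by_contra hne
    apply h
    have h1 : IsNowhereDense (frontier (Dn (range f))) := by
      rw [isClosed_frontier.isNowhereDense_iff]
      exact interior_frontier (Dn_closed _)
    refine IsMeagre.mono ?_ ((sdiff_Dn (range f)).union h1.isMeagre)
    rintro x ⟨hx1, hx2⟩
    by_cases hx : x ∈ Dn (range f)
    · right
      exact ⟨subset_closure hx, fun h3 => hne ⟨x, h3, hx2⟩⟩
    · exact Or.inl ⟨hx1, hx⟩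
  · refine IsMeagre.mono ?_ (analytic_bp hf)
    rintro x ⟨⟨hx1, _⟩, hx2⟩
    exact ⟨interior_subset hx1, hx2⟩

/-- A Borel map into a second countable space is sequentially continuous on a residual set. -/
theorem exists_residual_seqCont [MeasurableSpace X] [BorelSpace X] [MeasurableSpace Y]
    [BorelSpace Y] [SecondCountableTopology Y] {F : X → Y} (hF : Measurable F) :
    ∃ C ∈ residual X, ∀ (u : ℕ → X) (x : X), (∀ j, u j ∈ C) → x ∈ C →
      Tendsto u atTop (𝓝 x) → Tendsto (fun j => F (u j)) atTop (𝓝 (F x)) := by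
  have h1 : ∀ V ∈ countableBasis Y, ∃ U : Set X, IsOpen U ∧
      ∀ᶠ x in residual X, (F x ∈ V ↔ x ∈ U) := by
    intro V hV
    obtain ⟨U, hU, hU'⟩ := (hF (isOpen_of_mem_countableBasis hV).measurableSet).residualEq_isOpen
    exact ⟨U, hU, hU'.mem_iff⟩
  choose! U hU hU' using h1
  refine ⟨{x | ∀ V ∈ countableBasis Y, (F x ∈ V ↔ x ∈ U V)},
    (eventually_countable_ball (countable_countableBasis Y)).2 hU', ?_⟩
  intro u x hu hx hux
  rw [((isBasis_countableBasis Y).nhds_hasBasis).tendsto_right_iff]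
  rintro V ⟨hV, hxV⟩
  filter_upwards [hux.eventually ((hU V hV).mem_nhds ((hx V hV).1 hxV))] with j hj
  exact (hu j V hV).2 hj

theorem exists_seq_of_residual {C : Set X} (hC : C ∈ residual X) :
    ∃ O : ℕ → Set X, (∀ j, IsOpen (O j) ∧ Dense (O j)) ∧ ∀ x, (∀ j, x ∈ O j) → x ∈ C := by
  obtain ⟨S, hSo, hSd, hSc, hS⟩ := mem_residual_iff.1 hC
  obtain ⟨O, hO⟩ := (hSc.insert univ).exists_eq_range (insert_nonempty _ _)
  refine ⟨O, fun j => ?_, fun x hx => hS fun t ht => ?_⟩
  · have : O j ∈ insert univ S := hO ▸ mem_range_self j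
    rcases this with h | h
    · rw [h]; exact ⟨isOpen_univ, dense_univ⟩
    · exact ⟨hSo _ h, hSd _ h⟩
  · have : t ∈ range O := hO ▸ mem_insert_of_mem _ ht
    obtain ⟨j, rfl⟩ := this
    exact hx j

end Pool.Agent.H425Z.Cat
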