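import Pool.Agent.Results.MP_1b52a3_lc.NoBorelReduction

set_option autoImplicit false

open MeasureTheory

namespace Pool.Agent.H425Z.Erg

open Pool.Agent.Results.MP_1b52a3_lc.NoBorelReduction

/-- The ergodic elements of `Aut(X, μ)`: the classes of ergodic transformations. -/
def ErgAut {X : Type*} [MeasurableSpace X] (μ : Measure X) : Set (Aut μ) :=
  {S | ∃ U : PreAut μ, (QuotientGroup.mk U : Aut μ) = S ∧ Ergodic (U.1 : X → X) μ}

end Pool.Agent.H425Z.Erg
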