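import Pool.Agent.H425Z.Pinned
import Pool.Agent.Helper212.Fourier
import Pool.Agent.Helper212.FullDefs
import Pool.Agent.Helper212.Iso

set_option autoImplicit false
set_option linter.unusedSectionVars false
set_option maxHeartbeats 400000

namespace Pool.Agent.H425Z.Rot

open MeasureTheory Set Filter Topology
open scoped ComplexConjugate
open Pool.Agent.Helper212.Sq (CharFam)

/-- the infinite dimensional torus -/
abbrev Tor := ℕ → UnitAddCircle

/-- pairing with the dual group -/
noncomputable def pair (m : ℕ →₀ ℤ) (k : Tor) : UnitAddCircle := m.sum fun j n => n • k j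

theorem pair_add_right (m : ℕ →₀ ℤ) (k k' : Tor) : pair m (k + k') = pair m k + pair m k' := by
  unfold pair
  rw [← Finsupp.sum_add]
  refine Finsupp.sum_congr fun j _ => ?_
  rw [Pi.add_apply, smul_add]

theorem pair_add_left (m m' : ℕ →₀ ℤ) (k : Tor) : pair (m + m') k = pair m k + pair m' k := by
  unfold pair
  exact Finsupp.sum_add_index' (fun j => zero_smul ℤ _) (fun j a b => add_smul _ _ _)

theorem pair_zero (k : Tor) : pair 0 k = 0 := Finsupp.sum_zero_index

theorem pair_neg (m : ℕ →₀ ℤ) (k : Tor) : pair (-m) k = - pair m k := by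
  rw [eq_neg_iff_add_eq_zero, ← pair_add_left, neg_add_cancel, pair_zero]

theorem pair_single (j : ℕ) (n : ℤ) (k : Tor) : pair (Finsupp.single j n) k = n • k j :=
  Finsupp.sum_single_index (zero_smul _ _)

theorem continuous_pair (m : ℕ →₀ ℤ) : Continuous (pair m) := by
  unfold pair Finsupp.sum
  refine continuous_finsetSum _ fun j _ => ?_
  exact (continuous_zsmul (m j)).comp (continuous_apply j)

theorem pair_mapDomain (m : ℕ →₀ ℤ) (ι : ℕ → ℕ) (k : Tor) :
    pair (Finsupp.mapDomain ι m) k = pair m (k ∘ ι) := by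
  unfold pair
  exact Finsupp.sum_mapDomain_index (fun j => zero_smul ℤ _) (fun j a b => add_smul _ _ _)

theorem pair_pi_single (m : ℕ →₀ ℤ) (j : ℕ) (t : UnitAddCircle) :
    pair m (Pi.single j t) = m j • t := by
  unfold pair Finsupp.sum
  rw [Finset.sum_eq_single j]
  · simp
  · intro b _ hb
    simp [Pi.single_eq_of_ne hb]
  · intro hj
    simp [Finsupp.notMem_support_iff.1 hj]

/-- characters -/
noncomputable def chi (d : ℕ →₀ ℤ) : C(Tor, ℂ) where
  toFun y := ((AddCircle.toCircle (pair d y) : Circle) : ℂ)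
  continuous_toFun :=
    continuous_induced_dom.comp (AddCircle.continuous_toCircle.comp (continuous_pair d))

theorem chi_apply (d : ℕ →₀ ℤ) (y : Tor) :
    chi d y = ((AddCircle.toCircle (pair d y) : Circle) : ℂ) := rfl

/-- the family of characters -/
noncomputable def fam : CharFam Tor (ℕ →₀ ℤ) where
  χ := chi
  add_arg d y y' := by
    simp only [chi_apply, pair_add_right, AddCircle.toCircle_add, Circle.coe_mul]
  add_idx d d' y := by
    simp only [chi_apply, pair_add_left, AddCircle.toCircle_add, Circle.coe_mul]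
  zero_idx y := by
    simp only [chi_apply, pair_zero, AddCircle.toCircle_zero, Circle.coe_one]
  neg_idx d y := by
    simp only [chi_apply, pair_neg, AddCircle.toCircle_neg, Circle.coe_inv_eq_conj]
  sep y y' h := by
    obtain ⟨j, hj⟩ := Function.ne_iff.1 h
    refine ⟨Finsupp.single j 1, ?_⟩
    simp only [chi_apply, pair_single, one_smul, Ne, Circle.coe_inj]
    exact fun h3 => hj (AddCircle.injective_toCircle one_ne_zero h3)

theorem pair_eq_of_chi {d d' : ℕ →₀ ℤ} {y y' : Tor} (h : chi d y = chi d' y') :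
    pair d y = pair d' y' := by
  rw [chi_apply, chi_apply, Circle.coe_inj] at h
  exact AddCircle.injective_toCircle one_ne_zero h

/-- Haar measure -/
noncomputable def mu : Measure Tor := Measure.addHaarMeasure ⊤

instance : mu.IsAddHaarMeasure := Measure.isAddHaarMeasure_addHaarMeasure ⊤
instance : IsProbabilityMeasure mu := ⟨Measure.addHaarMeasure_self (K₀ := ⊤)⟩

theorem small_ne_zero {c t : ℝ} (h0 : c * t ≠ 0) (h1 : |c * t| < 1) :
    ((c * t : ℝ) : UnitAddCircle) ≠ 0 := by
  intro h
  rw [AddCircle.coe_eq_zero_iff] at h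
  obtain ⟨n, hn⟩ := h
  simp only [zsmul_eq_mul, mul_one] at hn
  rw [← hn] at h0 h1
  have h2 : |n| < 1 := by exact_mod_cast h1
  have h3 : n ≠ 0 := by exact_mod_cast h0
  exact h3 (Int.abs_lt_one_iff.1 h2)

theorem frequently_ne (c : ℤ) (hc : c ≠ 0) :
    ∃ᶠ t : ℝ in 𝓝 0, c • ((t : ℝ) : UnitAddCircle) ≠ 0 := by
  have h1 : ∀ᶠ t : ℝ in 𝓝[≠] 0, c • ((t : ℝ) : UnitAddCircle) ≠ 0 := by
    have h2 : ∀ᶠ t : ℝ in 𝓝 0, |(c : ℝ) * t| < 1 := by
      have : Continuous fun t : ℝ => |(c : ℝ) * t| := by fun_prop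
      exact this.continuousAt.eventually_lt continuousAt_const (by simp)
    filter_upwards [self_mem_nhdsWithin, mem_nhdsWithin_of_mem_nhds h2] with t ht ht'
    rw [← AddCircle.coe_zsmul, zsmul_eq_mul]
    exact small_ne_zero (mul_ne_zero (by exact_mod_cast hc) ht) ht'
  exact h1.frequently.filter_mono nhdsWithin_le_nhds

theorem tendsto_path (x : Tor) (j : ℕ) :
    Tendsto (fun t : ℝ => x + Pi.single j ((t : ℝ) : UnitAddCircle)) (𝓝 0) (𝓝 x) := by
  have h : Continuous fun t : ℝ => x + Pi.single j ((t : ℝ) : UnitAddCircle) :=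
    continuous_const.add ((continuous_single (A := fun _ : ℕ => UnitAddCircle) j).comp
      (AddCircle.continuous_mk' (1 : ℝ)))
  have := h.tendsto 0
  simpa using this

theorem dense_ne (m : ℕ →₀ ℤ) (hm : m ≠ 0) : Dense {x : Tor | pair m x ≠ 0} := by
  intro x
  by_cases hx : pair m x = 0
  · obtain ⟨j, hj⟩ := Finsupp.ne_iff.1 hm
    refine mem_closure_of_frequently_of_tendsto ?_ (tendsto_path x j)
    refine (frequently_ne (m j) hj).mono fun t ht => ?_
    show pair m _ ≠ 0
    rwa [pair_add_right, hx, zero_add, pair_pi_single]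
  · exact subset_closure hx

instance : NullSingletonClass mu := by
  have : (𝓝[≠] (0 : Tor)).NeBot := by
    rw [← mem_closure_iff_nhdsWithin_neBot]
    have h := dense_ne (Finsupp.single 0 1) (by simp) (0 : Tor)
    refine closure_mono ?_ h
    rintro x hx rfl
    apply hx
    rw [pair_single]; simp
  exact Measure.IsAddHaarMeasure.nullSingletonClass mu

/-- rationally independent sequences -/
def Ind : Set Tor := {x | ∀ m : ℕ →₀ ℤ, m ≠ 0 → pair m x ≠ 0}

theorem isOpen_ne (m : ℕ →₀ ℤ) : IsOpen {x : Tor | pair m x ≠ 0} :=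
  isOpen_ne_fun (continuous_pair m) continuous_const

theorem Ind_residual : Ind ∈ residual Tor := by
  refine eventually_countable_forall.2 fun m => ?_
  by_cases hm : m = 0
  · exact Eventually.of_forall fun x h => absurd hm h
  · filter_upwards [residual_of_dense_open (isOpen_ne m) (dense_ne m hm)] with x hx _
    exact hx

theorem measurableSet_Ind : MeasurableSet Ind := by
  have : Ind = ⋂ m : {m : ℕ →₀ ℤ // m ≠ 0}, {x : Tor | pair m.1 x ≠ 0} := by
    ext x; simp [Ind]
  rw [this]
  exact MeasurableSet.iInter fun m => (isOpen_ne m.1).measurableSet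

theorem Ind_comp {x : Tor} (hx : x ∈ Ind) {ι : ℕ → ℕ} (hι : Function.Injective ι) :
    x ∘ ι ∈ Ind := by
  intro m hm
  rw [← pair_mapDomain]
  refine hx _ fun h => hm ?_
  apply Finsupp.mapDomain_injective hι
  rw [h, Finsupp.mapDomain_zero]

/-- the rotation -/
noncomputable def rot (x : Tor) : Tor ≃ᵐ Tor := MeasurableEquiv.addLeft x

theorem rot_apply (x z : Tor) : rot x z = x + z := rfl

theorem mp_rot (x : Tor) : MeasurePreserving (rot x) mu mu := measurePreserving_add_left mu x

theorem ergodic_rot {x : Tor} (hx : x ∈ Ind) : Ergodic (rot x) mu := by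
  refine ⟨mp_rot x, ⟨fun s hs hs' => ?_⟩⟩
  have h1 : MemLp (s.indicator fun _ => (1 : ℂ)) 2 mu := (memLp_const 1).indicator hs
  have h2 := fam.ae_const mu _ h1 x (Eventually.of_forall fun y => by
    have : x + y ∈ s ↔ y ∈ s := by
      conv_rhs => rw [← hs']
      rfl
    by_cases hy : y ∈ s
    · rw [indicator_of_mem hy, indicator_of_mem (this.2 hy)]
    · rw [indicator_of_notMem hy, indicator_of_notMem (fun h => hy (this.1 h))]) (by
    intro d hd y
    have h3 : chi d x = chi 0 x := hd.trans (fam.zero_idx x).symm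
    have h4 := pair_eq_of_chi h3
    rw [pair_zero] at h4
    have h5 : d = 0 := by
      by_contra h6
      exact hx d h6 h4
    rw [h5]
    exact fam.zero_idx y)
  rw [eventuallyConst_set]
  by_cases hc : ∫ z, s.indicator (fun _ => (1 : ℂ)) z ∂mu = 1
  · left
    filter_upwards [h2] with y hy
    by_contra h
    rw [indicator_of_notMem h, hc] at hy
    exact zero_ne_one hy
  · right
    filter_upwards [h2] with y hy h
    rw [indicator_of_mem h] at hy
    exact hc hy.symm

open Pool.Agent.H425Z.Pin in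
/-- permutation of the coordinates -/
noncomputable def perm (σ : Sy) : Tor ≃ᵐ Tor := (ract (P := UnitAddCircle) σ).toMeasurableEquiv

open Pool.Agent.H425Z.Pin in
theorem perm_apply (σ : Sy) (z : Tor) : perm σ z = z ∘ fn σ := rfl

open Pool.Agent.H425Z.Pin in
theorem mp_perm (σ : Sy) : MeasurePreserving (perm σ) mu mu := by
  let f : Tor →+ Tor :=
    { toFun := fun z => z ∘ fn σ
      map_zero' := rfl
      map_add' := fun _ _ => rfl }
  exact f.measurePreserving (μ := mu) (ν := mu) (continuous_comp _)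
    (ract (P := UnitAddCircle) σ).surjective rfl

theorem not_intertwine {y : Tor} (hy : y ∈ Ind) {ι : ℕ → ℕ} (hι0 : ∀ i, ι i ≠ 0)
    (W : Tor → Tor) (hW : MeasurePreserving W mu mu)
    (h : ∀ᵐ z ∂mu, W (y ∘ ι + z) = y + W z) : False := by
  let φ : Tor → ℂ := fun z => chi (Finsupp.single 0 1) (W z)
  have hnorm : ∀ z, ‖φ z‖ = 1 := fun z => Circle.norm_coe _
  have hm : Measurable φ := (chi _).continuous.measurable.comp hW.measurable
  have h1 : MemLp φ 2 mu :=
    MemLp.of_bound hm.aestronglyMeasurable 1 (Eventually.of_forall fun z => (hnorm z).le)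
  have h2 : ¬ φ =ᵐ[mu] 0 := by
    intro h3
    obtain ⟨z, hz⟩ := h3.exists
    have := hnorm z
    rw [hz] at this
    simp at this
  obtain ⟨d, hd⟩ := fam.exists_char_eq mu φ h1 h2 (y ∘ ι) (chi (Finsupp.single 0 1) y) (by
    filter_upwards [h] with z hz
    simp only [φ, hz]
    exact fam.add_arg _ _ _)
  have h3 := pair_eq_of_chi hd
  rw [← pair_mapDomain] at h3
  refine hy (Finsupp.mapDomain ι d + -Finsupp.single 0 1) (fun h4 => ?_) ?_
  · have h5 := congrArg (fun m : ℕ →₀ ℤ => m 0) h4
    simp only [Finsupp.add_apply, Finsupp.neg_apply, Finsupp.single_eq_same, Finsupp.coe_zero,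
      Pi.zero_apply] at h5
    rw [Finsupp.mapDomain_of_notMem_range] at h5
    · simp at h5
    · rintro ⟨i, hi⟩
      exact hι0 i hi
  · rw [pair_add_left, pair_neg, h3, add_neg_cancel]

theorem continuous_meas_gen {Z W : Type*} [TopologicalSpace Z] [FirstCountableTopology Z]
    [TopologicalSpace W] [NormalSpace W] [R1Space W] [MeasurableSpace W] [BorelSpace W]
    (ν : Measure W) [IsProbabilityMeasure ν] [ν.WeaklyRegular]
    (F : Z → W → W) (hF : ∀ x, Continuous fun z => F z x) (hmp : ∀ z, MeasurePreserving (F z) ν ν)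
    (A B : Set W) (hA : MeasurableSet A) :
    Continuous fun z : Z => ν.real ((F z) ⁻¹' A ∩ B) := by
  have hval : ∀ z, ν.real ((F z) ⁻¹' A ∩ B) =
      ∫ x in B, A.indicator (fun _ => (1:ℝ)) (F z x) ∂ν := by
    intro z
    have h1 : (fun x => A.indicator (fun _ => (1:ℝ)) (F z x)) =
        ((F z) ⁻¹' A).indicator (fun _ => (1:ℝ)) := by
      ext x; rfl
    have h2 : MeasurableSet ((F z) ⁻¹' A) := (hmp z).measurable hA
    rw [h1, integral_indicator h2, setIntegral_const]
    simp only [smul_eq_mul, mul_one]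
    rw [measureReal_restrict_apply h2]
  simp only [hval]
  have hint : Integrable (A.indicator (fun _ => (1:ℝ))) ν := (integrable_const 1).indicator hA
  refine continuous_of_uniform_approx_of_continuous fun u hu => ?_
  obtain ⟨ε, hε, hεu⟩ := Metric.mem_uniformity_dist.1 hu
  obtain ⟨g, hg1, hg2⟩ := hint.exists_boundedContinuous_integral_sub_le (half_pos hε)
  refine ⟨fun z => ∫ x in B, g (F z x) ∂ν, ?_, fun z => hεu ?_⟩
  · refine continuous_of_dominated (bound := fun _ => ‖g‖) ?_ ?_ ?_ ?_
    · intro z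
      exact (g.continuous.measurable.comp (hmp z).measurable).aestronglyMeasurable
    · intro z
      exact Eventually.of_forall fun x => g.norm_coe_le_norm _
    · exact integrable_const _
    · exact Eventually.of_forall fun x => g.continuous.comp (hF x)
  · have hT := hmp z
    have i1 : Integrable (fun x => A.indicator (fun _ => (1:ℝ)) (F z x)) ν :=
      hT.integrable_comp_of_integrable hint
    have i2 : Integrable (fun x => g (F z x)) ν := hT.integrable_comp_of_integrable hg2
    rw [dist_eq_norm, ← integral_sub i1.restrict i2.restrict]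
    calc ‖∫ x in B, (A.indicator (fun _ => (1:ℝ)) (F z x) - g (F z x)) ∂ν‖
        ≤ ∫ x in B, ‖A.indicator (fun _ => (1:ℝ)) (F z x) - g (F z x)‖ ∂ν :=
          norm_integral_le_integral_norm _
      _ ≤ ∫ x, ‖A.indicator (fun _ => (1:ℝ)) (F z x) - g (F z x)‖ ∂ν :=
          setIntegral_le_integral (i1.sub i2).norm (Eventually.of_forall fun x => norm_nonneg _)
      _ = ∫ x, ‖A.indicator (fun _ => (1:ℝ)) x - g x‖ ∂ν := by
          conv_rhs => rw [← hT.map_eq]
          rw [integral_map hT.aemeasurable]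
          rw [hT.map_eq]
          exact (hint.sub hg2).norm.aestronglyMeasurable
      _ ≤ ε / 2 := hg1
      _ < ε := half_lt_self hε

theorem continuous_rot (z : Tor) : Continuous fun x : Tor => rot x z :=
  (continuous_id.add continuous_const : Continuous fun x : Tor => x + z)

theorem continuous_meas (A B : Set Tor) (hA : MeasurableSet A) :
    Continuous fun x : Tor => mu.real ((rot x) ⁻¹' A ∩ B) :=
  continuous_meas_gen mu (fun x => rot x) continuous_rot mp_rot A B hA

section Complete

open Pool.Agent.Helper212.ConjBorel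

variable {X : Type*} [MeasurableSpace X] [StandardBorelSpace X]
variable {μ : Measure X} [IsProbabilityMeasure μ] {T₀ : X ≃ᵐ X} {h : Ergodic T₀ μ}

theorem ae_eventually (u : ℕ → PreFull h) (hu : ∀ n, dist (u n) (u (n + 1)) ≤ (1 / 2) ^ n) :
    ∀ᵐ x ∂μ, ∀ᶠ n in atTop, (u n).1 x = (u (n + 1)).1 x := by
  have h1 : ∑' n, μ {x | (u n).1 x ≠ (u (n + 1)).1 x} ≠ ⊤ := by
    refine ne_top_of_le_ne_top ?_ (ENNReal.tsum_le_tsum
      (g := fun n => ENNReal.ofReal ((1 / 2) ^ n)) fun n => ?_)
    · rw [← ENNReal.ofReal_tsum_of_nonneg (fun n => by positivity) summable_geometric_two]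
      exact ENNReal.ofReal_ne_top
    · rw [← ofReal_measureReal]
      exact ENNReal.ofReal_le_ofReal (hu n)
  filter_upwards [ae_eventually_notMem h1] with x hx
  filter_upwards [hx] with n hn
  exact not_not.1 hn

theorem stable {α : Type*} {a : ℕ → α} {N : ℕ} (hN : ∀ n ≥ N, a n = a (n + 1)) :
    ∀ n ≥ N, a n = a N := by
  intro n hn
  induction n, hn using Nat.le_induction with
  | base => rfl
  | succ n hn ih => rw [← hN n hn, ih]

theorem exists_limit (u : ℕ → PreFull h) (hu : ∀ n, dist (u n) (u (n + 1)) ≤ (1 / 2) ^ n) :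
    ∃ g : PreFull h, ∀ᵐ x ∂μ, ∀ᶠ n in atTop, (u n).1 x = g.1 x := by
  classical
  have hu' : ∀ n, dist (u n)⁻¹ (u (n + 1))⁻¹ ≤ (1 / 2) ^ n := fun n => by
    rw [PreFull.dist_inv_inv']; exact hu n
  let E : (ℕ → PreFull h) → ℕ → Set X := fun v N => {x | ∀ n ≥ N, (v n).1 x = (v (n + 1)).1 x}
  have hE : ∀ v N, MeasurableSet (E v N) := by
    intro v N
    have : E v N = ⋂ n, ⋂ (_ : n ≥ N), {x | (v n).1 x ≠ (v (n + 1)).1 x}ᶜ := by
      ext x; simp [E]
    rw [this]
    exact MeasurableSet.iInter fun n => MeasurableSet.iInter fun _ =>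
      ((v n).measurableSet_ne (v (n + 1))).compl
  let Gd : Set X := {x | (∃ N, x ∈ E u N) ∧ ∃ N, x ∈ E (fun n => (u n)⁻¹) N}
  have hGd : MeasurableSet Gd := by
    have : Gd = (⋃ N, E u N) ∩ ⋃ N, E (fun n => (u n)⁻¹) N := by
      ext x; simp [Gd]
    rw [this]
    exact (MeasurableSet.iUnion (hE _)).inter (MeasurableSet.iUnion (hE _))
  have hGae : ∀ᵐ x ∂μ, x ∈ Gd := by
    filter_upwards [ae_eventually u hu, ae_eventually (fun n => (u n)⁻¹) hu'] with x h1 h2
    exact ⟨eventually_atTop.1 h1, eventually_atTop.1 h2⟩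
  let Z : Set X := {x | ∀ m : ℤ, tau T₀ m x ∈ Gd}
  have hZ : MeasurableSet Z := by
    have : Z = ⋂ m : ℤ, tau T₀ m ⁻¹' Gd := by ext x; simp [Z]
    rw [this]
    exact MeasurableSet.iInter fun m => measurable_tau T₀ m hGd
  have hZae : ∀ᵐ x ∂μ, x ∈ Z :=
    ae_all_iff.2 fun m => (mp_tau h m).quasiMeasurePreserving.ae hGae
  have hZG : ∀ x ∈ Z, x ∈ Gd := fun x hx => by
    have := hx 0
    rwa [tau_zero] at this
  have hZorb : ∀ x ∈ Z, ∀ y ∈ orb T₀ x, y ∈ Z := by
    rintro x hx _ ⟨k, rfl⟩ m
    show tau T₀ m (tau T₀ k x) ∈ Gd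
    rw [← tau_add]
    exact hx _
  let lim : (ℕ → PreFull h) → X → X := fun v x =>
    if hx : x ∈ Z ∧ ∃ N, x ∈ E v N then (v (Nat.find hx.2)).1 x else x
  have hlim1 : ∀ v x, x ∈ Z → (∃ N, x ∈ E v N) → ∀ᶠ n in atTop, (v n).1 x = lim v x := by
    intro v x hx hx'
    simp only [lim, dif_pos (And.intro hx hx')]
    exact eventually_atTop.2 ⟨_, stable (a := fun n => (v n).1 x) (Nat.find_spec hx')⟩
  have hlim2 : ∀ v x, x ∉ Z → lim v x = x := by
    intro v x hx
    simp only [lim]
    rw [dif_neg (fun h' => hx h'.1)]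
  have hlim3 : ∀ v x, lim v x ∈ orb T₀ x := by
    intro v x
    simp only [lim]
    split_ifs
    · exact PreFull.mem_orb _ x
    · exact mem_orb_self x
  have hlim4 : ∀ v, (∀ x ∈ Z, ∃ N, x ∈ E v N) → Measurable (lim v) := by
    intro v hv s hs
    have : lim v ⁻¹' s = (Z ∩ ⋃ N, (E v N ∩ (v N).1 ⁻¹' s)) ∪ (Zᶜ ∩ s) := by
      ext x
      by_cases hx : x ∈ Z
      · have h1 := hlim1 v x hx (hv x hx)
        simp only [mem_preimage, mem_union, mem_inter_iff, hx, true_and, mem_iUnion,
          mem_compl_iff, not_true, false_and, or_false]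
        constructor
        · intro h2
          refine ⟨Nat.find (hv x hx), Nat.find_spec (hv x hx), ?_⟩
          simpa only [lim, dif_pos (And.intro hx (hv x hx))] using h2
        · rintro ⟨N, h2, h3⟩
          obtain ⟨n, hn1, hn2⟩ := (h1.and (eventually_ge_atTop N)).exists
          rw [← hn1, stable (a := fun n => (v n).1 x) h2 n hn2]
          exact h3
      · simp [hx, hlim2 v x hx]
    rw [this]
    exact (hZ.inter (MeasurableSet.iUnion fun N => (hE v N).inter ((v N).measurable hs))).union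
      (hZ.compl.inter hs)
  have hinv : ∀ v w : ℕ → PreFull h, (∀ x ∈ Z, ∃ N, x ∈ E v N) → (∀ x ∈ Z, ∃ N, x ∈ E w N) →
      (∀ n x, (w n).1 ((v n).1 x) = x) → ∀ x, lim w (lim v x) = x := by
    intro v w hv hw hvw x
    by_cases hx : x ∈ Z
    · have hy : lim v x ∈ Z := hZorb x hx _ (hlim3 v x)
      obtain ⟨n, hn1, hn2⟩ := ((hlim1 v x hx (hv x hx)).and (hlim1 w _ hy (hw _ hy))).exists
      rw [← hn2, ← hn1, hvw]
    · rw [hlim2 v x hx, hlim2 w x hx]
  have hA : ∀ x ∈ Z, ∃ N, x ∈ E u N := fun x hx => (hZG x hx).1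
  have hB : ∀ x ∈ Z, ∃ N, x ∈ E (fun n => (u n)⁻¹) N := fun x hx => (hZG x hx).2
  let g : Equiv.Perm X :=
    { toFun := lim u
      invFun := lim fun n => (u n)⁻¹
      left_inv := hinv _ _ hA hB fun n x => Equiv.symm_apply_apply _ _
      right_inv := hinv _ _ hB hA fun n x => Equiv.apply_symm_apply _ _ }
  refine ⟨⟨g, hlim4 _ hA, hlim4 _ hB, fun x => ?_⟩, ?_⟩
  · obtain ⟨n, hn⟩ := hlim3 u x
    exact ⟨n, hn.symm⟩
  · filter_upwards [hZae] with x hx
    exact hlim1 u x hx (hA x hx)

theorem tendsto_of_ae (u : ℕ → PreFull h) (g : PreFull h)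
    (hg : ∀ᵐ x ∂μ, ∀ᶠ n in atTop, (u n).1 x = g.1 x) : Tendsto u atTop (𝓝 g) := by
  rw [tendsto_iff_dist_tendsto_zero]
  have h1 := tendsto_measure_of_ae_tendsto_indicator_of_isFiniteMeasure (μ := μ) atTop
    (As := fun n => {x | (u n).1 x ≠ g.1 x}) (A := ∅) MeasurableSet.empty
    (fun n => (u n).measurableSet_ne g) (by
      filter_upwards [hg] with x hx
      filter_upwards [hx] with n hn
      simp [hn])
  rw [measure_empty] at h1
  have h2 := (ENNReal.tendsto_toReal ENNReal.zero_ne_top).comp h1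
  exact h2

theorem completeSpace_preFull : CompleteSpace (PreFull h) := by
  refine Metric.complete_of_convergent_controlled_sequences (fun n => (1 / 2) ^ n)
    (fun n => by positivity) fun u hu => ?_
  obtain ⟨g, hg⟩ := exists_limit u fun n => (hu n n (n + 1) le_rfl (Nat.le_succ n)).le
  exact ⟨g, tendsto_of_ae u g hg⟩

end Complete

end Pool.Agent.H425Z.Rot
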