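import Pool.Agent.H425Z.ErgDefs
import Pool.Agent.H425Z.Rot

set_option autoImplicit false
set_option linter.unusedSectionVars false
set_option maxHeartbeats 400000

open MeasureTheory Filter Topology Set

namespace Pool.Agent.H425Z.Erg

open Pool.Agent.Results.MP_1b52a3_lc.NoBorelReduction Pool.Agent.Helper212.ConjBorel
open Pool.Agent.H425Z.Rot Pool.Agent.H425Z.Pin

variable {X : Type*} [MeasurableSpace X] {μ : Measure X}

/-- Transport of an automorphism of the torus to `X`. -/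
noncomputable def tr (e : Tor ≃ᵐ X) (he : MeasurePreserving e mu μ) (F : Tor ≃ᵐ Tor)
    (hF : MeasurePreserving F mu mu) : PreAut μ :=
  ⟨((e.symm.trans F).trans e).toEquiv,
    ⟨he.comp (hF.comp (MeasurePreserving.symm e he)),
      he.comp ((MeasurePreserving.symm F hF).comp (MeasurePreserving.symm e he))⟩⟩

/-- the transported rotation -/
noncomputable def RA (e : Tor ≃ᵐ X) (he : MeasurePreserving e mu μ) (x : Tor) : PreAut μ :=
  tr e he (rot x) (mp_rot x)

theorem continuous_RA (e : Tor ≃ᵐ X) (he : MeasurePreserving e mu μ) : Continuous (RA e he) := by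
  rw [continuous_induced_rng]
  refine continuous_pi fun p => ?_
  obtain ⟨⟨A, hA⟩, ⟨B, hB⟩⟩ := p
  have h1 := continuous_meas (e ⁻¹' A) (e ⁻¹' B) (e.measurable hA)
  have h2 : ∀ x, μ.real ((RA e he x).1 ⁻¹' A ∩ B)
      = mu.real ((rot x) ⁻¹' (e ⁻¹' A) ∩ e ⁻¹' B) := by
    intro x
    have h3 : e ⁻¹' ((RA e he x).1 ⁻¹' A ∩ B) = (rot x) ⁻¹' (e ⁻¹' A) ∩ e ⁻¹' B := by
      ext z
      show (e (rot x (e.symm (e z))) ∈ A ∧ e z ∈ B) ↔ (e (rot x z) ∈ A ∧ e z ∈ B)
      rw [e.symm_apply_apply]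
    have h4 : MeasurableSet ((RA e he x).1 ⁻¹' A ∩ B) := ((RA e he x).2.1.measurable hA).inter hB
    rw [← h3, measureReal_def, measureReal_def, he.measure_preimage h4.nullMeasurableSet]
  exact h1.congr fun x => (h2 x).symm

theorem ergodic_RA (e : Tor ≃ᵐ X) (he : MeasurePreserving e mu μ) {x : Tor} (hx : x ∈ Ind) :
    Ergodic ((RA e he x).1 : X → X) μ :=
  (he.ergodic_conjugate_iff (f := rot x)).2 (ergodic_rot hx)

theorem conj_perm (e : Tor ≃ᵐ X) (he : MeasurePreserving e mu μ) (x : Tor) (σ : Sy) :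
    ∃ U : Aut μ, (QuotientGroup.mk (RA e he (x ∘ fn σ)) : Aut μ) =
      U * QuotientGroup.mk (RA e he x) * U⁻¹ := by
  refine ⟨QuotientGroup.mk (tr e he (perm σ) (mp_perm σ)), ?_⟩
  rw [eq_mul_inv_iff_mul_eq]
  refine congrArg QuotientGroup.mk (Subtype.ext (Equiv.ext fun z => ?_))
  show e (rot (x ∘ fn σ) (e.symm (e (perm σ (e.symm z))))) =
    e (perm σ (e.symm (e (rot x (e.symm z)))))
  rw [e.symm_apply_apply, e.symm_apply_apply]
  rfl

theorem not_conj (e : Tor ≃ᵐ X) (he : MeasurePreserving e mu μ) {y : Tor} (hy : y ∈ Ind)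
    {ι : ℕ → ℕ} (hι0 : ∀ i, ι i ≠ 0) :
    ¬ ∃ U : Aut μ, (QuotientGroup.mk (RA e he (y ∘ ι)) : Aut μ) =
      U * QuotientGroup.mk (RA e he y) * U⁻¹ := by
  rintro ⟨U, hU⟩
  obtain ⟨W, rfl⟩ := QuotientGroup.mk_surjective U
  have hU' : (QuotientGroup.mk (W⁻¹ * RA e he (y ∘ ι)) : Aut μ) =
      QuotientGroup.mk (RA e he y * W⁻¹) := by
    rw [QuotientGroup.mk_mul, QuotientGroup.mk_mul, hU, QuotientGroup.mk_inv]
    group
  rw [mk_eq_mk_iff] at hU'
  have h2 : ∀ᵐ z ∂μ, W.1.symm (e (rot (y ∘ ι) (e.symm z))) = e (rot y (e.symm (W.1.symm z))) := hU'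
  have h3 := he.quasiMeasurePreserving.ae h2
  refine not_intertwine hy hι0 (fun z => e.symm (W.1.symm (e z)))
    ((MeasurePreserving.symm e he).comp (W.2.2.comp he)) ?_
  filter_upwards [h3] with z hz
  rw [e.symm_apply_apply, rot_apply, rot_apply] at hz
  rw [hz, e.symm_apply_apply]

theorem main [StandardBorelSpace X] [IsProbabilityMeasure μ] [NullSingletonClass μ]
    {T₀ : X ≃ᵐ X} (h : Ergodic T₀ μ) :
    ¬ ∃ f : ErgAut μ → FullGroup h, Measurable[borel (ErgAut μ), borel (FullGroup h)] f ∧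
      ∀ S S' : ErgAut μ, (∃ U : Aut μ, (S' : Aut μ) = U * S * U⁻¹) ↔
        ∃ V : FullGroup h, f S' = V * f S * V⁻¹ := by
  classical
  rintro ⟨f, hf, hred⟩
  obtain ⟨e1, h1⟩ := Pool.Agent.Helper212.Sq.exists_mp_equiv mu
  obtain ⟨e2, h2⟩ := Pool.Agent.Helper212.Sq.exists_mp_equiv μ
  let e : Tor ≃ᵐ X := e1.trans e2.symm
  have he : MeasurePreserving e mu μ := (MeasurePreserving.symm e2 h2).comp h1
  let _ : MeasurableSpace (ErgAut μ) := borel _
  have : BorelSpace (ErgAut μ) := ⟨rfl⟩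
  let _ : MeasurableSpace (FullGroup h) := borel _
  have : BorelSpace (FullGroup h) := ⟨rfl⟩
  have : SecondCountableTopology (FullGroup h) := secondCountable_fullGroup
  have : CompleteSpace (PreFull h) := completeSpace_preFull
  let j : Ind → ErgAut μ := fun x => ⟨QuotientGroup.mk (RA e he x), _, rfl, ergodic_RA e he x.2⟩
  have hj : Continuous j :=
    (continuous_quotient_mk'.comp ((continuous_RA e he).comp continuous_subtype_val)).subtype_mk _
  let F : Tor → FullGroup h := fun x => if hx : x ∈ Ind then f (j ⟨x, hx⟩) else 1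
  have hF : Measurable F :=
    Measurable.dite (f := fun x : Ind => f (j x)) (g := fun _ => 1) (hf.comp hj.measurable)
      measurable_const measurableSet_Ind
  have hr : ∀ a b c : FullGroup h, dist (a * c) (b * c) = dist a b := by
    intro a b c
    obtain ⟨a, rfl⟩ := SeparationQuotient.surjective_mk a
    obtain ⟨b, rfl⟩ := SeparationQuotient.surjective_mk b
    obtain ⟨c, rfl⟩ := SeparationQuotient.surjective_mk c
    rw [← SeparationQuotient.mk_mul, ← SeparationQuotient.mk_mul, SeparationQuotient.dist_mk,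
      SeparationQuotient.dist_mk, PreFull.dist_mul_right']
  obtain ⟨y, hy, ι, hι, hι0, g, hg⟩ := exists_inj (G := FullGroup h) (Y := FullGroup h)
    (act := fun g S => g * S * g⁻¹) (F := F) hr (fun g k S => by group) (by fun_prop) hF
    Ind_residual (fun x hx σ => by
      have hx' : x ∘ fn σ ∈ Ind := Ind_comp hx fun a b hab => by
        have := congrArg (fn σ⁻¹) hab
        rwa [fn_inv_fn, fn_inv_fn] at this
      obtain ⟨V, hV⟩ := (hred (j ⟨x, hx⟩) (j ⟨_, hx'⟩)).1 (conj_perm e he x σ)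
      refine ⟨V, ?_⟩
      simp only [F, dif_pos hx, dif_pos hx']
      exact hV.symm)
  have hy' := Ind_comp hy hι
  simp only [F, dif_pos hy, dif_pos hy'] at hg
  exact not_conj e he hy hι0 ((hred (j ⟨y, hy⟩) (j ⟨_, hy'⟩)).2 ⟨g, hg.symm⟩)

end Pool.Agent.H425Z.Erg
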