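import Pool.Agent.H425Z.Cat

set_option autoImplicit false
set_option linter.unusedSectionVars false

namespace Pool.Agent.H425Z.Pin

open Set TopologicalSpace Filter Topology MeasureTheory Pool.Agent.H425Z.Cat

/-- the permutation group of the natural numbers as a Polish space -/
def Sy : Type := Equiv.Perm ℕ

instance : Group Sy := inferInstanceAs (Group (Equiv.Perm ℕ))

/-- underlying function -/
def fn (σ : Sy) : ℕ → ℕ := fun i => (show Equiv.Perm ℕ from σ) i

theorem fn_mul (σ τ : Sy) (i : ℕ) : fn (σ * τ) i = fn σ (fn τ i) := rfl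
theorem fn_one (i : ℕ) : fn 1 i = i := rfl
theorem fn_inv_fn (σ : Sy) (i : ℕ) : fn σ⁻¹ (fn σ i) = i := by rw [← fn_mul, inv_mul_cancel, fn_one]
theorem fn_fn_inv (σ : Sy) (i : ℕ) : fn σ (fn σ⁻¹ i) = i := by rw [← fn_mul, mul_inv_cancel, fn_one]

/-- embedding in a product of Baire spaces -/
def emb (σ : Sy) : (ℕ → ℕ) × (ℕ → ℕ) := (fn σ, fn σ⁻¹)

instance : TopologicalSpace Sy := TopologicalSpace.induced emb inferInstance

theorem isClosedEmbedding_emb : IsClosedEmbedding emb := by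
  refine ⟨⟨⟨rfl⟩, ?_⟩, ?_⟩
  · intro σ τ h
    exact Equiv.ext fun i => congrFun (congrArg Prod.fst h) i
  · have : range emb = (⋂ i, {p : (ℕ → ℕ) × (ℕ → ℕ) | p.2 (p.1 i) = i}) ∩
        ⋂ i, {p : (ℕ → ℕ) × (ℕ → ℕ) | p.1 (p.2 i) = i} := by
      ext p
      simp only [mem_inter_iff, mem_iInter, mem_ofPred_eq]
      constructor
      · rintro ⟨σ, rfl⟩
        exact ⟨fn_inv_fn σ, fn_fn_inv σ⟩
      · rintro ⟨h1, h2⟩
        exact ⟨(⟨p.1, p.2, h1, h2⟩ : Equiv.Perm ℕ), rfl⟩
    rw [this]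
    have hev : Continuous fun q : (ℕ → ℕ) × ℕ => q.1 q.2 :=
      continuous_prod_of_discrete_right.2 fun b => continuous_apply b
    refine IsClosed.inter (isClosed_iInter fun i => isClosed_eq ?_ continuous_const)
      (isClosed_iInter fun i => isClosed_eq ?_ continuous_const)
    · exact hev.comp (continuous_snd.prodMk ((continuous_apply i).comp continuous_fst))
    · exact hev.comp (continuous_fst.prodMk ((continuous_apply i).comp continuous_snd))

instance : PolishSpace Sy := isClosedEmbedding_emb.polishSpace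

instance : MeasurableSpace Sy := borel Sy
instance : BorelSpace Sy := ⟨rfl⟩

theorem continuous_fn (i : ℕ) : Continuous fun σ : Sy => fn σ i :=
  (continuous_apply i).comp (continuous_fst.comp isClosedEmbedding_emb.continuous)

theorem continuous_fn_inv (i : ℕ) : Continuous fun σ : Sy => fn σ⁻¹ i :=
  (continuous_apply i).comp (continuous_snd.comp isClosedEmbedding_emb.continuous)

theorem continuous_mul_left (π : Sy) : Continuous fun σ : Sy => π * σ := by
  rw [isClosedEmbedding_emb.isInducing.continuous_iff]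
  refine Continuous.prodMk (continuous_pi fun i => ?_) (continuous_pi fun i => ?_)
  · exact (continuous_of_discreteTopology (f := fn π)).comp (continuous_fn i)
  · simp only [mul_inv_rev, fn_mul]
    exact continuous_fn_inv _

/-- left translation -/
def lmul (π : Sy) : Sy ≃ₜ Sy where
  toFun σ := π * σ
  invFun σ := π⁻¹ * σ
  left_inv σ := by simp
  right_inv σ := by simp
  continuous_toFun := continuous_mul_left π
  continuous_invFun := continuous_mul_left π⁻¹

theorem tendsto_lmul (π : Sy) : Tendsto (fun σ : Sy => π * σ) (residual Sy) (residual Sy) :=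
  tendsto_residual_of_isOpenMap (lmul π).continuous (lmul π).isOpenMap

theorem exists_agree {M : Set Sy} {σ₀ : Sy} (hM : M ∈ 𝓝 σ₀) :
    ∃ n, ∀ σ : Sy, (∀ i < n, fn σ i = fn σ₀ i) → σ ∈ M := by
  by_contra h
  push Not at h
  choose σ hσ hσ' using h
  have : Tendsto σ atTop (𝓝 σ₀) := by
    rw [isClosedEmbedding_emb.isInducing.tendsto_nhds_iff]
    refine Tendsto.prodMk_nhds (tendsto_pi_nhds.2 fun i => ?_) (tendsto_pi_nhds.2 fun i => ?_)
    · refine tendsto_const_nhds.congr' ?_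
      filter_upwards [eventually_gt_atTop i] with n hn
      exact (hσ n i hn).symm
    · refine tendsto_const_nhds.congr' ?_
      filter_upwards [eventually_gt_atTop (fn σ₀⁻¹ i)] with n hn
      have h1 := hσ n _ hn
      rw [fn_fn_inv] at h1
      show fn σ₀⁻¹ i = fn (σ n)⁻¹ i
      conv_rhs => rw [← h1, fn_inv_fn]
  obtain ⟨n, hn⟩ := (this.eventually hM).exists
  exact hσ' n hn

theorem exists_extend {ι : ℕ → ℕ} (hι : Function.Injective ι) (n : ℕ) :
    ∃ π : Sy, ∀ i < n, fn π i = ι i := by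
  induction n with
  | zero => exact ⟨1, fun i hi => absurd hi (Nat.not_lt_zero i)⟩
  | succ n ih =>
    obtain ⟨π, hπ⟩ := ih
    refine ⟨(show Sy from Equiv.swap (fn π n) (ι n)) * π, fun i hi => ?_⟩
    show Equiv.swap (fn π n) (ι n) (fn π i) = ι i
    rcases Nat.lt_succ_iff_lt_or_eq.1 hi with h | rfl
    · rw [Equiv.swap_apply_of_ne_of_ne, hπ i h]
      · intro h1
        have := congrArg (fn π⁻¹) h1
        rw [fn_inv_fn, fn_inv_fn] at this
        exact h.ne this
      · rw [hπ i h]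
        exact fun h1 => h.ne (hι h1)
    · exact Equiv.swap_apply_left _ _

theorem isOpen_agree (ι : ℕ → ℕ) (n : ℕ) : IsOpen {σ : Sy | ∀ i < n, fn σ i = ι i} := by
  have : {σ : Sy | ∀ i < n, fn σ i = ι i} = ⋂ i ∈ Finset.range n, {σ : Sy | fn σ i = ι i} := by
    ext σ; simp
  rw [this]
  exact isOpen_biInter_finset fun i _ =>
    (isOpen_discrete {ι i}).preimage (continuous_fn i)

section Space

variable {P : Type} [TopologicalSpace P]

theorem continuous_eval : Continuous fun q : (ℕ → P) × ℕ => q.1 q.2 :=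
  continuous_prod_of_discrete_right.2 fun b => continuous_apply b

theorem continuous_act : Continuous fun q : (ℕ → P) × Sy => q.1 ∘ fn q.2 :=
  continuous_pi fun i => continuous_eval.comp
    (continuous_fst.prodMk ((continuous_fn i).comp continuous_snd))

theorem continuous_act_inv : Continuous fun q : (ℕ → P) × Sy => q.1 ∘ fn q.2⁻¹ :=
  continuous_pi fun i => continuous_eval.comp
    (continuous_fst.prodMk ((continuous_fn_inv i).comp continuous_snd))

/-- shear homeomorphism -/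
def shear : (ℕ → P) × Sy ≃ₜ (ℕ → P) × Sy where
  toFun q := (q.1 ∘ fn q.2, q.2)
  invFun q := (q.1 ∘ fn q.2⁻¹, q.2)
  left_inv q := by
    ext i
    · show q.1 (fn q.2 (fn q.2⁻¹ i)) = q.1 i
      rw [fn_fn_inv]
    · rfl
  right_inv q := by
    ext i
    · show q.1 (fn q.2⁻¹ (fn q.2 i)) = q.1 i
      rw [fn_inv_fn]
    · rfl
  continuous_toFun := continuous_act.prodMk continuous_snd
  continuous_invFun := continuous_act_inv.prodMk continuous_snd

theorem tendsto_act : Tendsto (fun q : (ℕ → P) × Sy => q.1 ∘ fn q.2) (residual _) (residual _) :=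
  tendsto_residual_of_isOpenMap continuous_act (isOpenMap_fst.comp (shear (P := P)).isOpenMap)

theorem continuous_comp (ι : ℕ → ℕ) : Continuous fun x : ℕ → P => x ∘ ι :=
  continuous_pi fun i => continuous_apply (ι i)

/-- right translation -/
def ract (π : Sy) : (ℕ → P) ≃ₜ (ℕ → P) where
  toFun x := x ∘ fn π
  invFun x := x ∘ fn π⁻¹
  left_inv x := by
    ext i
    show x (fn π (fn π⁻¹ i)) = x i
    rw [fn_fn_inv]
  right_inv x := by
    ext i
    show x (fn π⁻¹ (fn π i)) = x i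
    rw [fn_inv_fn]
  continuous_toFun := continuous_comp _
  continuous_invFun := continuous_comp _

theorem tendsto_ract (π : Sy) :
    Tendsto (fun x : ℕ → P => x ∘ fn π) (residual _) (residual _) :=
  tendsto_residual_of_isOpenMap (ract π).continuous (ract π).isOpenMap

theorem exists_agree_pi {V : Set (ℕ → P)} {x : ℕ → P} (hV : V ∈ 𝓝 x) :
    ∃ n, ∀ x' : ℕ → P, (∀ i < n, x' i = x i) → x' ∈ V := by
  by_contra h
  push Not at h
  choose u hu hu' using h
  have : Tendsto u atTop (𝓝 x) := by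
    refine tendsto_pi_nhds.2 fun i => tendsto_const_nhds.congr' ?_
    filter_upwards [eventually_gt_atTop i] with n hn
    exact (hu n i hn).symm
  obtain ⟨n, hn⟩ := (this.eventually hV).exists
  exact hu' n hn

/-- extension of a finite sequence by a shift -/
def ext (n : ℕ) (t : Fin n → ℕ) (m : ℕ) : ℕ → ℕ := fun i => if h : i < n then t ⟨i, h⟩ else m + i

theorem ext_injective {n : ℕ} {t : Fin n → ℕ} (ht : Function.Injective t) {m : ℕ}
    (hm : ∀ i, t i < m) : Function.Injective (ext n t m) := by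
  intro i j h
  unfold ext at h
  split_ifs at h with h1 h2 h2
  · exact congrArg Fin.val (ht h)
  · have := hm ⟨i, h1⟩; omega
  · have := hm ⟨j, h2⟩; omega
  · omega

theorem residual_ext {D : Set (ℕ → P)} (hD : IsOpen D) (hD' : Dense D) (n : ℕ) (t : Fin n → ℕ)
    (ht : Function.Injective t) :
    ∀ᶠ y in residual (ℕ → P), ∃ m, (∀ i, t i < m) ∧ 0 < m ∧ y ∘ ext n t m ∈ D := by
  classical
  apply residual_of_dense_open
  · have : {y : ℕ → P | ∃ m, (∀ i, t i < m) ∧ 0 < m ∧ y ∘ ext n t m ∈ D} =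
        ⋃ m ∈ {m | (∀ i, t i < m) ∧ 0 < m}, (fun y : ℕ → P => y ∘ ext n t m) ⁻¹' D := by
      ext y; simp [and_assoc]
    rw [this]
    exact isOpen_biUnion fun m _ => hD.preimage (continuous_comp _)
  · intro y₀
    rw [mem_closure_iff]
    intro Q hQ hy₀
    obtain ⟨K, u, hu1, hu2⟩ := isOpen_pi_iff.1 hQ y₀ hy₀
    let m := (K.sup id) + (Finset.univ.sup t) + 1
    have hm1 : ∀ i, t i < m := fun i => by
      have := Finset.le_sup (f := t) (Finset.mem_univ i); omega
    have hm2 : ∀ k ∈ K, k < m := fun k hk => by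
      have := Finset.le_sup (f := id) hk
      simp only [id] at this; omega
    have hinj := ext_injective ht hm1
    have hO : IsOpen {x : ℕ → P | ∀ i : Fin n, t i ∈ K → x i ∈ u (t i)} := by
      have : {x : ℕ → P | ∀ i : Fin n, t i ∈ K → x i ∈ u (t i)} =
          ⋂ i : {i : Fin n // t i ∈ K}, (fun x : ℕ → P => x i.1) ⁻¹' u (t i.1) := by
        ext x; simp
      rw [this]
      exact isOpen_iInter_of_finite fun i => (hu1 _ i.2).1.preimage (continuous_apply _)
    have hne : {x : ℕ → P | ∀ i : Fin n, t i ∈ K → x i ∈ u (t i)}.Nonempty := by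
      refine ⟨y₀ ∘ ext n t m, fun i hi => ?_⟩
      simp only [Function.comp, ext, i.2, dif_pos]
      exact (hu1 _ hi).2
    obtain ⟨x, hxO, hxD⟩ := hD'.inter_open_nonempty _ hO hne
    refine ⟨Function.extend (ext n t m) x y₀, hu2 fun k hk => ?_, m, hm1, by omega, ?_⟩
    · by_cases hk' : ∃ i, ext n t m i = k
      · obtain ⟨i, rfl⟩ := hk'
        rw [hinj.extend_apply]
        by_cases hi : i < n
        · have e : ext n t m i = t ⟨i, hi⟩ := by simp [ext, hi]
          rw [e] at hk ⊢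
          exact hxO ⟨i, hi⟩ hk
        · have e : ext n t m i = m + i := by simp [ext, hi]
          have := hm2 _ hk
          omega
      · rw [Function.extend_apply' _ _ _ hk']
        exact (hu1 k hk).2
    · rw [Function.extend_comp hinj]
      exact hxD

end Space

section Main

variable {P : Type} [TopologicalSpace P] [PolishSpace P] [MeasurableSpace P] [BorelSpace P]
  [Nonempty P]
variable {G Y : Type*} [Group G] [MetricSpace G] [CompleteSpace G] [SecondCountableTopology G]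
  [TopologicalSpace Y] [T2Space Y] [SecondCountableTopology Y] [MeasurableSpace Y] [BorelSpace Y]

/-- closeness along the orbit -/
def R (act : G → Y → Y) (F : (ℕ → P) → Y) (ε : ℝ) (x x' : ℕ → P) : Prop :=
  ∃ g : G, dist g 1 < ε ∧ act g (F x) = F x'

/-- generic closeness inside a basic open set of permutations -/
def Good (act : G → Y → Y) (F : (ℕ → P) → Y) (y : ℕ → P) (ε : ℝ) (ι : ℕ → ℕ) (n : ℕ) : Prop :=
  ∃ T ∈ residual Sy, ∀ σ ∈ T, ∀ σ' ∈ T, (∀ i < n, fn σ i = ι i) → (∀ i < n, fn σ' i = ι i) →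
    R act F ε (y ∘ fn σ) (y ∘ fn σ')

variable {act : G → Y → Y} {F : (ℕ → P) → Y}

theorem Good.mono {y : ℕ → P} {ε : ℝ} {ι ι' : ℕ → ℕ} {n n' : ℕ} (h : Good act F y ε ι n)
    (hn : n ≤ n') (hι : ∀ i < n, ι' i = ι i) : Good act F y ε ι' n' := by
  obtain ⟨T, hT, h⟩ := h
  exact ⟨T, hT, fun σ hσ σ' hσ' h1 h2 => h σ hσ σ' hσ'
    (fun i hi => (h1 i (hi.trans_le hn)).trans (hι i hi))
    (fun i hi => (h2 i (hi.trans_le hn)).trans (hι i hi))⟩

theorem Good.of_id {y : ℕ → P} {ε : ℝ} {π : Sy} {n : ℕ} (h : Good act F (y ∘ fn π) ε id n) :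
    Good act F y ε (fn π) n := by
  obtain ⟨T, hT, h⟩ := h
  refine ⟨_, tendsto_lmul π⁻¹ hT, fun σ hσ σ' hσ' h1 h2 => ?_⟩
  have e : ∀ τ : Sy, (y ∘ fn π) ∘ fn (π⁻¹ * τ) = y ∘ fn τ := fun τ => by
    ext i; simp only [Function.comp, fn_mul, fn_fn_inv]
  have := h _ hσ _ hσ' (fun i hi => by rw [fn_mul, h1 i hi, fn_inv_fn]; rfl)
    (fun i hi => by rw [fn_mul, h2 i hi, fn_inv_fn]; rfl)
  rwa [e, e] at this

theorem Good.to_id {y : ℕ → P} {ε : ℝ} {π : Sy} {n : ℕ} (h : Good act F y ε (fn π) n) :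
    Good act F (y ∘ fn π) ε id n := by
  obtain ⟨T, hT, h⟩ := h
  refine ⟨_, tendsto_lmul π hT, fun σ hσ σ' hσ' h1 h2 => ?_⟩
  exact h _ hσ _ hσ' (fun i hi => by rw [fn_mul, h1 i hi]; rfl)
    (fun i hi => by rw [fn_mul, h2 i hi]; rfl)

theorem analytic_B (hcont : Continuous fun p : G × Y => act p.1 p.2) (hF : Measurable F)
    (g₀ : G) (ε : ℝ) : AnalyticSet {p : (ℕ → P) × Sy |
      ∃ g : G, dist g g₀ < ε ∧ act g (F p.1) = F (p.1 ∘ fn p.2)} := by
  borelize G
  have h1 : MeasurableSet {q : ((ℕ → P) × Sy) × G |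
      dist q.2 g₀ < ε ∧ act q.2 (F q.1.1) = F (q.1.1 ∘ fn q.1.2)} := by
    refine MeasurableSet.inter ?_ ?_
    · exact (isOpen_lt (continuous_snd.dist continuous_const) continuous_const).measurableSet
    · refine measurableSet_eq_fun ?_ ?_
      · exact hcont.measurable.comp (measurable_snd.prodMk
          (hF.comp (measurable_fst.comp measurable_fst)))
      · exact hF.comp (continuous_act.measurable.comp measurable_fst)
  convert h1.analyticSet.image_of_continuous continuous_fst using 1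
  ext p
  constructor
  · rintro ⟨g, hg⟩
    exact ⟨(p, g), hg, rfl⟩
  · rintro ⟨⟨p', g⟩, hg, rfl⟩
    exact ⟨g, hg⟩

theorem local_good (hr : ∀ a b c : G, dist (a * c) (b * c) = dist a b)
    (hmul : ∀ g h y, act (g * h) y = act g (act h y))
    (hcont : Continuous fun p : G × Y => act p.1 p.2) (hF : Measurable F)
    {I : Set (ℕ → P)} (hI : I ∈ residual (ℕ → P))
    (hinv : ∀ x ∈ I, ∀ σ : Sy, ∃ g : G, act g (F x) = F (x ∘ fn σ))
    {ε : ℝ} (hε : 0 < ε) {O : Set (ℕ → P)} (hO : IsOpen O) (hne : O.Nonempty) :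
    ∃ V, IsOpen V ∧ V.Nonempty ∧ V ⊆ O ∧
      ∃ n, ∀ᶠ x in residual (ℕ → P), x ∈ V → Good act F x ε id n := by
  have : Nonempty G := ⟨1⟩
  let B : ℕ → Set ((ℕ → P) × Sy) := fun k => {p |
      ∃ g : G, dist g (denseSeq G k) < ε / 2 ∧ act g (F p.1) = F (p.1 ∘ fn p.2)}
  let O' : Set ((ℕ → P) × Sy) := (fun q => q.1 ∘ fn q.2) ⁻¹' O
  have hO' : IsOpen O' := hO.preimage continuous_act
  have hne' : O'.Nonempty := by
    obtain ⟨x, hx⟩ := hne
    exact ⟨(x, 1), hx⟩
  have h1 : ∃ k, ¬ IsMeagre (B k ∩ O') := by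
    by_contra hcon
    push Not at hcon
    apply not_isMeagre_of_isOpen hO' hne'
    have h2 : IsMeagre ((Prod.fst : (ℕ → P) × Sy → (ℕ → P)) ⁻¹' Iᶜ) :=
      IsMeagre.preimage_of_isOpenMap continuous_fst isOpenMap_fst (by
        rw [IsMeagre, compl_compl]; exact hI)
    refine IsMeagre.mono ?_ (h2.union (isMeagre_iUnion hcon))
    intro p hp
    by_cases hpI : p.1 ∈ I
    · right
      obtain ⟨g, hg⟩ := hinv p.1 hpI p.2
      obtain ⟨k, hk⟩ := Metric.denseRange_iff.1 (denseRange_denseSeq G) g (ε / 2) (half_pos hε)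
      exact mem_iUnion.2 ⟨k, ⟨g, hk, hg⟩, hp⟩
    · exact Or.inl hpI
  obtain ⟨k, hk⟩ := h1
  obtain ⟨W, hW, ⟨⟨y₀, σ₀⟩, hy₀⟩, hWO, hWB⟩ :=
    analytic_local (analytic_B hcont hF (denseSeq G k) (ε / 2)) hO' hk
  obtain ⟨N, M, hN, hM, hyN, hσM, hNM⟩ := isOpen_prod_iff.1 hW y₀ σ₀ hy₀
  obtain ⟨n, hn⟩ := exists_agree (hM.mem_nhds hσM)
  have e : ∀ x : ℕ → P, (x ∘ fn σ₀⁻¹) ∘ fn σ₀ = x := fun x => by
    ext i; simp only [Function.comp, fn_inv_fn]
  refine ⟨(fun x => x ∘ fn σ₀⁻¹) ⁻¹' N, hN.preimage (continuous_comp _), ⟨y₀ ∘ fn σ₀, ?_⟩, ?_, n, ?_⟩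
  · show (y₀ ∘ fn σ₀) ∘ fn σ₀⁻¹ ∈ N
    have : (y₀ ∘ fn σ₀) ∘ fn σ₀⁻¹ = y₀ := by
      ext i; simp only [Function.comp, fn_fn_inv]
    rwa [this]
  · intro x hx
    have h3 : (x ∘ fn σ₀⁻¹, σ₀) ∈ O' := hWO (hNM ⟨hx, hσM⟩)
    rw [← e x]
    exact h3
  · filter_upwards [tendsto_ract σ₀⁻¹ (ku hWB)] with x hx hxN
    rw [← e x]
    apply Good.to_id
    refine ⟨_, hx, fun σ hσ σ' hσ' h1 h2 => ?_⟩
    have h3 : ∀ τ : Sy, τ ∈ {y | (x ∘ fn σ₀⁻¹, y) ∈ W \ B k}ᶜ → (∀ i < n, fn τ i = fn σ₀ i) →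
        (x ∘ fn σ₀⁻¹, τ) ∈ B k := by
      intro τ hτ h4
      by_contra h5
      exact hτ ⟨hNM ⟨hxN, hn τ h4⟩, h5⟩
    obtain ⟨g, hg1, hg2⟩ := h3 σ hσ h1
    obtain ⟨g', hg1', hg2'⟩ := h3 σ' hσ' h2
    refine ⟨g' * g⁻¹, ?_, ?_⟩
    · rw [← hr _ _ g, inv_mul_cancel_right, one_mul]
      have := dist_triangle_right g' g (denseSeq G k)
      linarith
    · rw [← hg2, ← hmul, inv_mul_cancel_right, hg2']

/-- Main abstract statement. -/
theorem exists_inj (hr : ∀ a b c : G, dist (a * c) (b * c) = dist a b)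
    (hmul : ∀ g h y, act (g * h) y = act g (act h y))
    (hcont : Continuous fun p : G × Y => act p.1 p.2) (hF : Measurable F)
    {I : Set (ℕ → P)} (hI : I ∈ residual (ℕ → P))
    (hinv : ∀ x ∈ I, ∀ σ : Sy, ∃ g : G, act g (F x) = F (x ∘ fn σ)) :
    ∃ y ∈ I, ∃ ι : ℕ → ℕ, Function.Injective ι ∧ (∀ i, ι i ≠ 0) ∧
      ∃ g : G, act g (F y) = F (y ∘ ι) := by
  classical
  obtain ⟨C, hC, hCc⟩ := exists_residual_seqCont hF
  obtain ⟨O, hO, hOC⟩ := exists_seq_of_residual hC
  let gd : ℕ → Set (ℕ → P) → ℕ → Prop := fun j V n =>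
    ∀ᶠ x in residual (ℕ → P), x ∈ V → Good act F x ((1 / 2) ^ j) id n
  let D : ℕ → Set (ℕ → P) := fun j =>
    O j ∩ ⋃ V ∈ {V ∈ countableBasis (ℕ → P) | ∃ n, gd j V n}, V
  have hDo : ∀ j, IsOpen (D j) := fun j => (hO j).1.inter
    (isOpen_biUnion fun V hV => isOpen_of_mem_countableBasis hV.1)
  have hDd : ∀ j, Dense (D j) := by
    intro j
    rw [dense_iff_inter_open]
    intro U hU hne
    obtain ⟨V, hV, ⟨x, hx⟩, hVU, n, hn⟩ := local_good hr hmul hcont hF hI hinv
      (show (0 : ℝ) < (1 / 2) ^ j by positivity) (hU.inter (hO j).1)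
      ((hO j).2.inter_open_nonempty U hU hne)
    obtain ⟨V', hV', hxV', hV'V⟩ := (isBasis_countableBasis _).exists_subset_of_mem_open hx hV
    refine ⟨x, (hVU hx).1, (hVU hx).2, mem_biUnion (show V' ∈ _ from ⟨hV', n, ?_⟩) hxV'⟩
    exact hn.mono fun z hz hzV => hz (hV'V hzV)
  have hπ : ∀ t : (Σ n : ℕ, Fin n → ℕ), ∃ π : Sy, Function.Injective t.2 →
      ∀ i : Fin t.1, fn π i = t.2 i := by
    rintro ⟨n, t⟩
    by_cases ht : Function.Injective t
    · have hm : ∀ i, t i < Finset.univ.sup t + 1 := fun i =>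
        Nat.lt_succ_of_le (Finset.le_sup (f := t) (Finset.mem_univ i))
      obtain ⟨π, hπ⟩ := exists_extend (ext_injective ht hm) n
      refine ⟨π, fun _ i => ?_⟩
      rw [hπ i i.2]
      simp [ext, i.2]
    · exact ⟨1, fun h => absurd h ht⟩
  choose π hπ using hπ
  have hb : ∀ᶠ y in residual (ℕ → P), {σ : Sy | y ∘ fn σ ∈ C} ∈ residual Sy := by
    have h1 : IsMeagre {q : (ℕ → P) × Sy | q.1 ∘ fn q.2 ∈ C}ᶜ := by
      rw [IsMeagre, compl_compl]; exact tendsto_act hC
    filter_upwards [ku h1] with y hy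
    rw [IsMeagre] at hy
    convert hy using 1
    ext σ; simp
  have hc : ∀ᶠ y in residual (ℕ → P), ∀ (t : Σ n : ℕ, Fin n → ℕ) (j n : ℕ),
      ∀ V ∈ countableBasis (ℕ → P), gd j V n → y ∘ fn (π t) ∈ V →
        Good act F (y ∘ fn (π t)) ((1 / 2) ^ j) id n := by
    refine eventually_countable_forall.2 fun t => eventually_countable_forall.2 fun j =>
      eventually_countable_forall.2 fun n =>
        (eventually_countable_ball (countable_countableBasis _)).2 fun V _ => ?_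
    by_cases h : gd j V n
    · filter_upwards [tendsto_ract (π t) h] with y hy _
      exact hy
    · exact Eventually.of_forall fun y h' => absurd h' h
  have hd : ∀ᶠ y in residual (ℕ → P), ∀ (t : Σ n : ℕ, Fin n → ℕ) (j : ℕ),
      Function.Injective t.2 → ∃ m, (∀ i, t.2 i < m) ∧ 0 < m ∧ y ∘ ext t.1 t.2 m ∈ D j := by
    refine eventually_countable_forall.2 fun t => eventually_countable_forall.2 fun j => ?_
    by_cases h : Function.Injective t.2
    · filter_upwards [residual_ext (hDo j) (hDd j) t.1 t.2 h] with y hy _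
      exact hy
    · exact Eventually.of_forall fun y h' => absurd h' h
  obtain ⟨y, hyI, hyb, hyc, hyd⟩ :=
    (dense_of_mem_residual (inter_mem hI (inter_mem hb (inter_mem hc hd)))).nonempty
  have step : ∀ (j : ℕ) (s : {p : ℕ × (ℕ → ℕ) // Function.Injective p.2 ∧ ∀ i, p.2 i ≠ 0}),
      ∃ s' : {p : ℕ × (ℕ → ℕ) // Function.Injective p.2 ∧ ∀ i, p.2 i ≠ 0},
        s.1.1 < s'.1.1 ∧ (∀ i < s.1.1, s'.1.2 i = s.1.2 i) ∧
        Good act F y ((1 / 2) ^ j) s'.1.2 s'.1.1 ∧
        ∀ x : ℕ → P, (∀ i < s'.1.1, x i = y (s'.1.2 i)) → x ∈ O j := by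
    rintro j ⟨⟨n, ι⟩, hι, hι0⟩
    have ht : Function.Injective fun i : Fin n => ι i := fun a b h => Fin.ext (hι h)
    obtain ⟨m, hm1, hm2, hO1, hV⟩ := hyd ⟨n, fun i : Fin n => ι i⟩ j ht
    obtain ⟨V, ⟨hV1, n₀, hV2⟩, hV3⟩ := mem_iUnion₂.1 hV
    have hinj := ext_injective ht hm1
    obtain ⟨n₁, hn₁⟩ := exists_agree_pi (inter_mem ((hO j).1.mem_nhds hO1)
      ((isOpen_of_mem_countableBasis hV1).mem_nhds hV3))
    refine ⟨⟨(n + n₀ + n₁ + 1, ext n (fun i : Fin n => ι i) m), hinj, fun i => ?_⟩,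
      by simp only; omega, fun i hi => ?_, ?_, fun x hx => ?_⟩
    · simp only [ext]
      split_ifs
      · exact hι0 _
      · omega
    · simp only at hi
      simp [ext, hi]
    · let t' : Σ n : ℕ, Fin n → ℕ :=
        ⟨n + n₀ + n₁ + 1, fun i => ext n (fun i : Fin n => ι i) m i⟩
      have ht' : Function.Injective t'.2 := fun a b h => Fin.ext (hinj h)
      have h1 : ∀ i < n + n₀ + n₁ + 1, fn (π t') i = ext n (fun i : Fin n => ι i) m i :=
        fun i hi => hπ t' ht' ⟨i, hi⟩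
      have h2 : y ∘ fn (π t') ∈ V := (hn₁ _ fun i hi => by
        simp only [Function.comp]; rw [h1 i (by omega)]).2
      exact (hyc t' j n₀ V hV1 hV2 h2).of_id.mono (by simp only; omega)
        fun i hi => (h1 i (by omega)).symm
    · exact (hn₁ x fun i hi => hx i (by simp only; omega)).1
  choose nx hnx1 hnx2 hnx3 hnx4 using step
  let st : ℕ → {p : ℕ × (ℕ → ℕ) // Function.Injective p.2 ∧ ∀ i, p.2 i ≠ 0} := fun j =>
    Nat.rec ⟨(0, Nat.succ), Nat.succ_injective, Nat.succ_ne_zero⟩ (fun j s => nx j s) j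
  have hst : ∀ j, st (j + 1) = nx j (st j) := fun j => rfl
  have hlt : ∀ j, (st j).1.1 < (st (j + 1)).1.1 := fun j => hnx1 j (st j)
  have hmono : StrictMono fun j => (st j).1.1 := strictMono_nat_of_lt_succ hlt
  have hle : ∀ j, j ≤ (st j).1.1 := fun j => hmono.id_le j
  have hag : ∀ j k, j ≤ k → ∀ i < (st j).1.1, (st k).1.2 i = (st j).1.2 i := by
    intro j k hjk
    induction k, hjk using Nat.le_induction with
    | base => intro i _; rfl
    | succ k hjk ih =>
      intro i hi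
      rw [hst, hnx2 k (st k) i (hi.trans_le (hmono.monotone hjk)), ih i hi]
  let ι : ℕ → ℕ := fun i => (st (i + 1)).1.2 i
  have hι : ∀ j, ∀ i < (st j).1.1, ι i = (st j).1.2 i := by
    intro j i hi
    rcases le_total j (i + 1) with h | h
    · exact hag j (i + 1) h i hi
    · exact (hag (i + 1) j h i (hle (i + 1))).symm
  have hιinj : Function.Injective ι := by
    intro a b h
    have ha : a < (st (a + b + 1)).1.1 := lt_of_lt_of_le (by omega) (hle (a + b + 1))
    have hb : b < (st (a + b + 1)).1.1 := lt_of_lt_of_le (by omega) (hle (a + b + 1))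
    rw [hι (a + b + 1) a ha, hι (a + b + 1) b hb] at h
    exact (st (a + b + 1)).2.1 h
  have hgood : ∀ j, Good act F y ((1 / 2) ^ j) ι (st (j + 1)).1.1 := fun j =>
    (hnx3 j (st j)).mono le_rfl (hι (j + 1))
  choose T hT hT' using hgood
  have hE : (⋂ j, T j) ∩ {σ : Sy | y ∘ fn σ ∈ C} ∈ residual Sy :=
    inter_mem (countable_iInter_mem.2 hT) hyb
  have hσ : ∀ j, ∃ σ : Sy, (∀ i < (st (j + 1)).1.1, fn σ i = ι i) ∧
      σ ∈ (⋂ j, T j) ∩ {σ : Sy | y ∘ fn σ ∈ C} := fun j =>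
    (dense_of_mem_residual hE).inter_open_nonempty _ (isOpen_agree ι _) (exists_extend hιinj _)
  choose σ hσ1 hσ2 hσ3 using hσ
  have hR : ∀ j, R act F ((1 / 2) ^ j) (y ∘ fn (σ j)) (y ∘ fn (σ (j + 1))) := fun j =>
    hT' j _ (mem_iInter.1 (hσ2 j) j) _ (mem_iInter.1 (hσ2 (j + 1)) j) (hσ1 j)
      fun i hi => hσ1 (j + 1) i (hi.trans (hlt (j + 1)))
  choose h hh1 hh2 using hR
  obtain ⟨g₀, hg₀⟩ := hinv y hyI (σ 0)
  let g : ℕ → G := fun j => Nat.rec g₀ (fun j a => h j * a) j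
  have hg : ∀ j, g (j + 1) = h j * g j := fun j => rfl
  have hg1 : ∀ j, act (g j) (F y) = F (y ∘ fn (σ j)) := by
    intro j
    induction j with
    | zero => exact hg₀
    | succ j ih => rw [hg, hmul, ih, hh2]
  have hcau : CauchySeq g := by
    refine cauchySeq_of_le_geometric (1 / 2) 1 (by norm_num) fun j => ?_
    rw [hg, one_mul, dist_comm]
    conv_lhs => rw [← one_mul (g j), ← mul_assoc, mul_one, hr]
    exact (hh1 j).le
  obtain ⟨g', hg'⟩ := cauchySeq_tendsto_of_complete hcau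
  refine ⟨y, hyI, ι, hιinj, fun i => (st (i + 1)).2.2 i, g', ?_⟩
  have h1 : Tendsto (fun j => act (g j) (F y)) atTop (𝓝 (act g' (F y))) :=
    (hcont.tendsto (g', F y)).comp (hg'.prodMk_nhds tendsto_const_nhds)
  have h2 : Tendsto (fun j => F (y ∘ fn (σ j))) atTop (𝓝 (F (y ∘ ι))) := by
    refine hCc _ _ hσ3 (hOC _ fun j => hnx4 j (st j) _ fun i hi => ?_) ?_
    · simp only [Function.comp]
      rw [hι (j + 1) i hi]
    · refine tendsto_pi_nhds.2 fun i => tendsto_const_nhds.congr' ?_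
      filter_upwards [eventually_ge_atTop i] with j hj
      simp only [Function.comp]
      rw [hσ1 j i (lt_of_lt_of_le (by omega) (hle (j + 1)))]
  simp only [hg1] at h1
  exact tendsto_nhds_unique h1 h2

end Main

end Pool.Agent.H425Z.Pin
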