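import Mathlib

set_option autoImplicit false
set_option linter.style.haveILetI false

open Filter Topology Set

namespace Pool.Agent.H425Z.SG

section General
variable {G : Type} [CommGroup G]

/-- the finest group topology in which all sequences of `S` tend to `1` -/
def tauS (S : Set (ℕ → G)) : GroupTopology G :=
  sInf {t : GroupTopology G | ∀ u ∈ S, Tendsto u atTop (@nhds _ t.toTopologicalSpace 1)}

theorem tendsto_tauS {S : Set (ℕ → G)} {u : ℕ → G} (hu : u ∈ S) :
    Tendsto u atTop (@nhds _ (tauS S).toTopologicalSpace 1) := by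
  unfold tauS
  rw [GroupTopology.toTopologicalSpace_sInf, nhds_sInf]
  simp only [tendsto_iInf]
  rintro _ ⟨t, ht, rfl⟩
  exact ht u hu

theorem tauS_le {S : Set (ℕ → G)} (t : TopologicalSpace G) (ht : @IsTopologicalGroup G t _)
    (h : ∀ u ∈ S, Tendsto u atTop (@nhds _ t 1)) : (tauS S).toTopologicalSpace ≤ t := by
  have : tauS S ≤ ⟨t, ht⟩ := sInf_le h
  exact this

theorem continuous_hom {S : Set (ℕ → G)} {H : Type} [Group H] [TopologicalSpace H]
    [IsTopologicalGroup H] (f : G →* H) (h : ∀ u ∈ S, Tendsto (fun j => f (u j)) atTop (𝓝 1)) :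
    @Continuous G H (tauS S).toTopologicalSpace _ f := by
  rw [continuous_iff_le_induced]
  refine tauS_le _ (topologicalGroup_induced f) ?_
  intro u hu
  rw [nhds_induced, tendsto_comap_iff, map_one]
  exact h u hu

theorem continuous_hom_open {S : Set (ℕ → G)} (K : Subgroup G)
    (hK : IsOpen[(tauS S).toTopologicalSpace] (K : Set G))
    {H : Type} [Group H] [TopologicalSpace H] [IsTopologicalGroup H] (f : K →* H)
    (hf : @SeqContinuous K H (@instTopologicalSpaceSubtype G _ (tauS S).toTopologicalSpace) _ f) :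
    @Continuous K H (@instTopologicalSpaceSubtype G _ (tauS S).toTopologicalSpace) _ f := by
  classical
  letI : TopologicalSpace G := (tauS S).toTopologicalSpace
  haveI : IsTopologicalGroup G := (tauS S).toIsTopologicalGroup
  let B : GroupFilterBasis G := groupFilterBasisOfComm
    {U | ∃ V ∈ 𝓝 (1 : H), U = Subtype.val '' (f ⁻¹' V)}
    ⟨_, univ, univ_mem, rfl⟩
    (by
      rintro _ _ ⟨V, hV, rfl⟩ ⟨W, hW, rfl⟩
      refine ⟨_, ⟨V ∩ W, inter_mem hV hW, rfl⟩, ?_⟩
      rintro _ ⟨x, hx, rfl⟩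
      exact ⟨⟨x, hx.1, rfl⟩, ⟨x, hx.2, rfl⟩⟩)
    (by
      rintro _ ⟨V, hV, rfl⟩
      exact ⟨1, by simpa using mem_of_mem_nhds hV, rfl⟩)
    (by
      rintro _ ⟨V, hV, rfl⟩
      obtain ⟨W, hW, hWV⟩ := exists_nhds_one_split hV
      refine ⟨_, ⟨W, hW, rfl⟩, ?_⟩
      rintro _ ⟨_, ⟨x, hx, rfl⟩, _, ⟨y, hy, rfl⟩, rfl⟩
      refine ⟨x * y, ?_, rfl⟩
      simp only [mem_preimage, map_mul]
      exact hWV _ hx _ hy)
    (by
      rintro _ ⟨V, hV, rfl⟩
      refine ⟨_, ⟨V⁻¹, inv_mem_nhds_one H hV, rfl⟩, ?_⟩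
      rintro _ ⟨x, hx, rfl⟩
      refine ⟨x⁻¹, ?_, rfl⟩
      simp only [mem_preimage, map_inv]
      exact hx)
  have hle : (tauS S).toTopologicalSpace ≤ B.topology := by
    refine tauS_le _ B.isTopologicalGroup ?_
    intro u hu
    rw [B.nhds_one_hasBasis.tendsto_right_iff]
    rintro _ ⟨V, hV, rfl⟩
    have h1 : Tendsto u atTop (𝓝 1) := tendsto_tauS hu
    have h2 : ∀ᶠ j in atTop, u j ∈ K := h1.eventually (hK.mem_nhds K.one_mem)
    let v : ℕ → K := fun j => if h : u j ∈ K then ⟨u j, h⟩ else 1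
    have h3 : ∀ᶠ j in atTop, (v j : G) = u j := by
      filter_upwards [h2] with j hj
      simp [v, hj]
    have h4 : Tendsto v atTop (𝓝 1) := by
      rw [tendsto_subtype_rng]
      exact h1.congr' (h3.mono fun j hj => hj.symm)
    have h5 := hf h4
    rw [map_one] at h5
    filter_upwards [h3, h5.eventually hV] with j hj hj'
    exact ⟨v j, hj', hj⟩
  apply continuous_of_continuousAt_one f
  intro V hV
  rw [map_one] at hV
  have h6 : Subtype.val '' (f ⁻¹' V) ∈ 𝓝 (1 : G) :=
    nhds_mono hle (B.mem_nhds_one ⟨V, hV, rfl⟩)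
  have h7 : (Subtype.val : K → G) ⁻¹' (Subtype.val '' (f ⁻¹' V)) ∈ 𝓝 (1 : K) :=
    continuous_subtype_val.continuousAt.preimage_mem_nhds h6
  rwa [preimage_image_eq _ Subtype.val_injective] at h7

end General

section Tails

open Classical in
/-- digit of `B` -/
noncomputable def dig (B : Set ℕ) (s : ℕ) : ℝ := if s ∈ B then 1 else 0

theorem dig_nonneg (B : Set ℕ) (s : ℕ) : 0 ≤ dig B s := by unfold dig; split_ifs <;> norm_num
theorem dig_le (B : Set ℕ) (s : ℕ) : dig B s ≤ 1 := by unfold dig; split_ifs <;> norm_num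

/-- binary tail after position `k` -/
noncomputable def tail (B : Set ℕ) (k : ℕ) : ℝ := ∑' t : ℕ, dig B (k + 1 + t) * (1 / 2) ^ (t + 1)

theorem summable_half : Summable fun t : ℕ => (1 / 2 : ℝ) ^ (t + 1) :=
  (summable_nat_add_iff 1).2 summable_geometric_two

theorem summable_tail (B : Set ℕ) (k : ℕ) :
    Summable fun t : ℕ => dig B (k + 1 + t) * (1 / 2 : ℝ) ^ (t + 1) :=
  Summable.of_nonneg_of_le (fun t => mul_nonneg (dig_nonneg _ _) (by positivity))
    (fun t => mul_le_of_le_one_left (by positivity) (dig_le _ _)) summable_half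

theorem tail_nonneg (B : Set ℕ) (k : ℕ) : 0 ≤ tail B k :=
  tsum_nonneg fun t => mul_nonneg (dig_nonneg _ _) (by positivity)

theorem tail_le_one (B : Set ℕ) (k : ℕ) : tail B k ≤ 1 := by
  have h : ∑' t : ℕ, (1 / 2 : ℝ) ^ (t + 1) = 1 := by
    simp only [pow_succ]
    rw [tsum_mul_right, tsum_geometric_two]; norm_num
  rw [← h]
  exact (summable_tail B k).tsum_le_tsum
    (fun t => mul_le_of_le_one_left (by positivity) (dig_le _ _)) summable_half

theorem tail_succ (B : Set ℕ) (k : ℕ) : 2 * tail B k = dig B (k + 1) + tail B (k + 1) := by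
  unfold tail
  rw [(summable_tail B k).tsum_eq_zero_add, mul_add, ← tsum_mul_left]
  congr 1
  · simp only [add_zero, zero_add, pow_one]; ring
  · refine tsum_congr fun t => ?_
    rw [show k + 1 + (t + 1) = k + 1 + 1 + t by ring]
    ring

theorem exists_int (B : Set ℕ) (k : ℕ) : ∃ m : ℤ, (2 : ℝ) ^ k * tail B 0 = m + tail B k := by
  induction k with
  | zero => exact ⟨0, by simp⟩
  | succ k ih =>
    obtain ⟨m, hm⟩ := ih
    have h := tail_succ B k
    by_cases hk : k + 1 ∈ B
    · refine ⟨2 * m + 1, ?_⟩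
      simp only [dig, hk, if_true] at h
      push_cast
      rw [pow_succ]; linarith
    · refine ⟨2 * m, ?_⟩
      simp only [dig, hk, if_false] at h
      push_cast
      rw [pow_succ]; linarith

theorem tail_le_of_gap (B : Set ℕ) (d : ℕ) : ∀ k : ℕ, (∀ s, k < s → s ≤ k + d → s ∉ B) →
    tail B k ≤ (1 / 2) ^ d := by
  induction d with
  | zero => intro k _; simpa using tail_le_one B k
  | succ d ih =>
    intro k hk
    have h := tail_succ B k
    have h1 : k + 1 ∉ B := hk _ (by omega) (by omega)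
    simp only [dig, h1, if_false] at h
    have h2 := ih (k + 1) fun s h3 h4 => hk s (by omega) (by omega)
    rw [pow_succ]; linarith

theorem tail_of_mem (B : Set ℕ) (k : ℕ) (h : k + 1 ∈ B) : tail B k = 1 / 2 + tail B (k + 1) / 2 := by
  have h1 := tail_succ B k
  simp only [dig, h, if_true] at h1
  linarith

end Tails

/-- start of block `i` -/
def L (i : ℕ) : ℕ := 2 * i * i + 6 * i

theorem L_succ (i : ℕ) : L (i + 1) = L i + 4 * i + 8 := by unfold L; ring

theorem L_mono {i j : ℕ} (h : i ≤ j) : L i ≤ L j := by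
  unfold L; nlinarith [Nat.mul_le_mul h h]

theorem le_L (i : ℕ) : i ≤ L i := by unfold L; nlinarith

/-- level of an index -/
def lv (i : ℕ) : ℕ := (Nat.unpair i).1

theorem lv_le (i : ℕ) : lv i ≤ i := Nat.unpair_left_le i

theorem gap (I : Set ℕ) (p : ℕ → ℕ) (hp : ∀ j, L j < p j ∧ p j ≤ L j + 2 * j + 5)
    (i q d : ℕ) (hq : L i ≤ q) (hd : q + d ≤ L (i + 1))
    (hi : i ∈ I → p i ≤ q ∨ q + d < p i) : tail (p '' I) q ≤ (1 / 2) ^ d := by
  apply tail_le_of_gap
  rintro s h1 h2 ⟨j, hj, rfl⟩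
  rcases lt_trichotomy j i with h | h | h
  · have := L_mono (show j + 1 ≤ i from h)
    have := L_succ j
    have := hp j
    omega
  · subst h
    have := hi hj
    omega
  · have := L_mono (show i + 1 ≤ j from h)
    have := hp j
    omega

/-- the group -/
def G : Type := Multiplicative ℤ

instance : CommGroup G := inferInstanceAs (CommGroup (Multiplicative ℤ))

instance : Countable G := inferInstanceAs (Countable ℤ)

/-- the integer behind a group element -/
def toZ (g : G) : ℤ := Multiplicative.toAdd (g : Multiplicative ℤ)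

/-- powers of two -/
def pw (k : ℕ) : G := (Multiplicative.ofAdd ((2 : ℤ) ^ k) : Multiplicative ℤ)

theorem toZ_mul (g h : G) : toZ (g * h) = toZ g + toZ h := rfl
theorem toZ_one : toZ 1 = 0 := rfl
theorem toZ_pw (k : ℕ) : toZ (pw k) = 2 ^ k := rfl
theorem toZ_inj {g h : G} (e : toZ g = toZ h) : g = h := e
theorem toZ_pow (g : G) (m : ℕ) : toZ (g ^ m) = m * toZ g := by
  induction m with
  | zero => simp [toZ_one]
  | succ m ih => rw [pow_succ, toZ_mul, ih]; push_cast; ring

theorem pw_add (k m : ℕ) : pw (k + m) = pw k ^ (2 ^ m) := by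
  apply toZ_inj
  rw [toZ_pow, toZ_pw, toZ_pw]; push_cast; ring

/-- the set of sequences declared null -/
def S : Set (ℕ → G) :=
  {fun i => pw (L i)} ∪
    {u | ∃ σ : ℕ → ℕ, Tendsto (fun j => lv (σ j)) atTop atTop ∧
      u = fun j => pw (L (σ j) + 2 * σ j + 4)}

instance topG : TopologicalSpace G := (tauS S).toTopologicalSpace

instance : IsTopologicalGroup G := (tauS S).toIsTopologicalGroup

/-- characters -/
noncomputable def ch (θ : ℝ) (g : G) : UnitAddCircle := (((toZ g : ℝ) * θ : ℝ) : UnitAddCircle)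

theorem ch_mul (θ : ℝ) (g h : G) : ch θ (g * h) = ch θ g + ch θ h := by
  unfold ch
  rw [toZ_mul, ← AddCircle.coe_add]
  push_cast
  rw [add_mul]

theorem ch_one (θ : ℝ) : ch θ 1 = 0 := by simp [ch, toZ_one]

theorem continuous_ch (θ : ℝ) (h : ∀ u ∈ S, Tendsto (fun j => ch θ (u j)) atTop (𝓝 0)) :
    Continuous (ch θ) := by
  let f : G →* Multiplicative UnitAddCircle :=
    { toFun := fun g => Multiplicative.ofAdd (ch θ g)
      map_one' := by rw [ch_one]; rfl
      map_mul' := fun g h => by rw [ch_mul]; rfl }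
  exact continuous_hom (S := S) f h

theorem coe_int (m : ℤ) : (((m : ℝ) : ℝ) : UnitAddCircle) = 0 := by
  rw [AddCircle.coe_eq_zero_iff]
  exact ⟨m, by simp⟩

theorem ch_tail (B : Set ℕ) (k : ℕ) : ch (tail B 0) (pw k) = ((tail B k : ℝ) : UnitAddCircle) := by
  obtain ⟨m, hm⟩ := exists_int B k
  unfold ch
  rw [toZ_pw]
  push_cast
  rw [hm, AddCircle.coe_add, coe_int, zero_add]

theorem tendsto_coe_of_le {B : Set ℕ} {q : ℕ → ℕ}
    (h : ∀ N : ℕ, ∀ᶠ j in atTop, tail B (q j) ≤ (1 / 2) ^ N) :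
    Tendsto (fun j => ch (tail B 0) (pw (q j))) atTop (𝓝 0) := by
  simp only [ch_tail]
  have h0 : Tendsto (fun j => tail B (q j)) atTop (𝓝 0) := by
    rw [Metric.tendsto_nhds]
    intro ε hε
    obtain ⟨N, hN⟩ := exists_pow_lt_of_lt_one hε (show (1 / 2 : ℝ) < 1 by norm_num)
    filter_upwards [h N] with j hj
    rw [Real.dist_eq, sub_zero, abs_of_nonneg (tail_nonneg _ _)]
    exact hj.trans_lt hN
  have := (AddCircle.continuous_mk' (1 : ℝ)).tendsto 0
  exact this.comp h0

theorem tendsto_of_lv {σ : ℕ → ℕ} (h : Tendsto (fun j => lv (σ j)) atTop atTop) :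
    Tendsto σ atTop atTop :=
  tendsto_atTop_mono (fun j => lv_le (σ j)) h

theorem ch_half_pw (s k : ℕ) (h : s ≤ k) : ch ((1 / 2) ^ s) (pw k) = 0 := by
  obtain ⟨m, rfl⟩ := Nat.exists_eq_add_of_le h
  unfold ch
  rw [toZ_pw]
  have : (((2 : ℤ) ^ (s + m) : ℤ) : ℝ) * (1 / 2) ^ s = (((2 : ℤ) ^ m : ℤ) : ℝ) := by
    push_cast
    rw [pow_add, one_div, inv_pow]
    field_simp
  rw [this, coe_int]

theorem continuous_ch_half (s : ℕ) : Continuous (ch ((1 / 2) ^ s)) := by
  apply continuous_ch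
  rintro u (rfl | ⟨σ, hσ, rfl⟩)
  · refine tendsto_const_nhds.congr' ?_
    filter_upwards [eventually_ge_atTop s] with i hi
    exact (ch_half_pw s _ (hi.trans (le_L i))).symm
  · refine tendsto_const_nhds.congr' ?_
    filter_upwards [(tendsto_of_lv hσ).eventually (eventually_ge_atTop s)] with i hi
    exact (ch_half_pw s _ (by omega)).symm

theorem eq_one_of_ch {g : G} (h : ∀ s : ℕ, ch ((1 / 2) ^ s) g = 0) : g = 1 := by
  apply toZ_inj
  rw [toZ_one]
  by_contra hne
  obtain ⟨s, hs⟩ := pow_unbounded_of_one_lt (|(toZ g : ℝ)|) (show (1 : ℝ) < 2 by norm_num)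
  have h1 := h s
  unfold ch at h1
  rw [AddCircle.coe_eq_zero_iff] at h1
  obtain ⟨m, hm⟩ := h1
  simp only [zsmul_eq_mul, mul_one] at hm
  have h2 : (toZ g : ℝ) = m * 2 ^ s := by
    rw [hm, one_div, inv_pow]; field_simp
  have hm0 : m ≠ 0 := by
    rintro rfl
    apply hne
    simp only [Int.cast_zero, zero_mul] at h2
    exact_mod_cast h2
  have h3 : (1 : ℝ) ≤ |(m : ℝ)| := by exact_mod_cast Int.one_le_abs hm0
  rw [h2, abs_mul, abs_of_pos (show (0 : ℝ) < 2 ^ s by positivity)] at hs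
  nlinarith [show (0 : ℝ) < 2 ^ s by positivity]

instance : T2Space G := by
  apply IsTopologicalGroup.t2Space_of_one_sep
  intro g hg
  by_contra hcon
  apply hg
  apply eq_one_of_ch
  intro s
  by_contra hs
  apply hcon
  refine ⟨(ch ((1 / 2) ^ s)) ⁻¹' {ch ((1 / 2) ^ s) g}ᶜ, ?_, by simp⟩
  apply (continuous_ch_half s).continuousAt.preimage_mem_nhds
  rw [ch_one]
  exact isOpen_compl_singleton.mem_nhds (Ne.symm hs)

theorem continuous_typeI (n : ℕ) :
    Continuous (ch (tail ((fun j => L j + 2 * j + 5) '' {j | lv j = n}) 0)) := by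
  apply continuous_ch
  rintro u (rfl | ⟨σ, hσ, rfl⟩)
  · apply tendsto_coe_of_le
    intro N
    filter_upwards [eventually_ge_atTop N] with i hi
    refine gap _ _ (fun j => by omega) i _ N le_rfl (by rw [L_succ]; omega) fun _ => ?_
    right; omega
  · apply tendsto_coe_of_le (q := fun j => L (σ j) + 2 * σ j + 4)
    intro N
    filter_upwards [(tendsto_of_lv hσ).eventually (eventually_ge_atTop N),
      hσ.eventually (eventually_gt_atTop n)] with i hi hi'
    refine gap _ _ (fun j => by omega) (σ i) _ N (by omega) (by rw [L_succ]; omega) fun h => ?_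
    exact absurd h hi'.ne'

theorem continuous_typeII (I : Set ℕ) (hI : ∀ N : ℕ, ∀ᶠ i in atTop, i ∈ I → N ≤ lv i) :
    Continuous (ch (tail ((fun j => L j + lv j + 1) '' I) 0)) := by
  apply continuous_ch
  rintro u (rfl | ⟨σ, hσ, rfl⟩)
  · apply tendsto_coe_of_le
    intro N
    filter_upwards [eventually_ge_atTop N, hI N] with i hi hi'
    refine gap _ _ (fun j => by have := lv_le j; omega) i _ N le_rfl (by rw [L_succ]; omega)
      fun h => ?_
    right; have := hi' h; omega
  · apply tendsto_coe_of_le (q := fun j => L (σ j) + 2 * σ j + 4)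
    intro N
    filter_upwards [(tendsto_of_lv hσ).eventually (eventually_ge_atTop N)] with i hi
    refine gap _ _ (fun j => by have := lv_le j; omega) (σ i) _ N (by omega)
      (by rw [L_succ]; omega) fun _ => ?_
    left; have := lv_le (σ i); omega

/-- the points of the sequentially closed set -/
def e (i : ℕ) : G := pw (L i + lv i) * pw (L i + 2 * i + 4)

theorem norm_ge {r : ℝ} (h1 : 1 / 2 ≤ r) (h2 : r ≤ 3 / 4) : 1 / 4 ≤ ‖(r : UnitAddCircle)‖ := by
  rw [UnitAddCircle.norm_eq]
  rcases le_or_gt (round r) 0 with h | h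
  · have : ((round r : ℤ) : ℝ) ≤ 0 := by exact_mod_cast h
    rw [abs_of_nonneg (by linarith)]; linarith
  · have : (1 : ℝ) ≤ ((round r : ℤ) : ℝ) := by exact_mod_cast h
    rw [abs_of_nonpos (by linarith)]; linarith

theorem far_typeI (n i : ℕ) (hi : lv i = n) :
    1 / 4 ≤ ‖ch (tail ((fun j => L j + 2 * j + 5) '' {j | lv j = n}) 0) (e i)‖ := by
  unfold e
  rw [ch_mul, ch_tail, ch_tail, ← AddCircle.coe_add]
  have h1 := gap {j | lv j = n} (fun j => L j + 2 * j + 5) (fun j => by omega) i (L i + lv i) 3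
    (by omega) (by rw [L_succ]; have := lv_le i; omega) (fun _ => by
      right; have := lv_le i; omega)
  have h2 := gap {j | lv j = n} (fun j => L j + 2 * j + 5) (fun j => by omega) i
    (L i + 2 * i + 4 + 1) 3 (by omega) (by rw [L_succ]; omega) (fun _ => by left; omega)
  have h3 := tail_of_mem ((fun j => L j + 2 * j + 5) '' {j | lv j = n}) (L i + 2 * i + 4)
    ⟨i, hi, rfl⟩
  have h4 := tail_nonneg ((fun j => L j + 2 * j + 5) '' {j | lv j = n}) (L i + lv i)
  have h5 := tail_nonneg ((fun j => L j + 2 * j + 5) '' {j | lv j = n}) (L i + 2 * i + 4 + 1)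
  apply norm_ge <;> norm_num at h1 h2 ⊢ <;> linarith

theorem far_typeII (I : Set ℕ) (i : ℕ) (hi : i ∈ I) :
    1 / 4 ≤ ‖ch (tail ((fun j => L j + lv j + 1) '' I) 0) (e i)‖ := by
  unfold e
  rw [ch_mul, ch_tail, ch_tail, ← AddCircle.coe_add]
  have h1 := gap I (fun j => L j + lv j + 1) (fun j => by have := lv_le j; omega) i
    (L i + lv i + 1) 3
    (by omega) (by rw [L_succ]; have := lv_le i; omega) (fun _ => by left; omega)
  have h2 := gap I (fun j => L j + lv j + 1) (fun j => by have := lv_le j; omega) i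
    (L i + 2 * i + 4) 3 (by omega) (by rw [L_succ]; omega)
    (fun _ => by left; have := lv_le i; omega)
  have h3 := tail_of_mem ((fun j => L j + lv j + 1) '' I) (L i + lv i) ⟨i, hi, rfl⟩
  have h4 := tail_nonneg ((fun j => L j + lv j + 1) '' I) (L i + lv i + 1)
  have h5 := tail_nonneg ((fun j => L j + lv j + 1) '' I) (L i + 2 * i + 4)
  apply norm_ge <;> norm_num at h1 h2 ⊢ <;> linarith

theorem not_far {θ : ℝ} (hθ : Continuous (ch θ)) {w : ℕ → G} (hw : Tendsto w atTop (𝓝 1))
    (h : ∃ᶠ j in atTop, 1 / 4 ≤ ‖ch θ (w j)‖) : False := by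
  have h1 := ((hθ.tendsto 1).comp hw).norm
  rw [ch_one, norm_zero] at h1
  have h2 := h1.eventually (gt_mem_nhds (show (0 : ℝ) < 1 / 4 by norm_num))
  obtain ⟨j, hj, hj'⟩ := (h.and_eventually h2).exists
  exact absurd hj (not_le.2 hj')

theorem tendsto_of_not_freq {c : ℕ → ℕ} (h : ∀ i, ¬ ∃ᶠ j in atTop, c j = i) :
    Tendsto c atTop atTop := by
  rw [tendsto_atTop]
  intro N
  have : ∀ᶠ j in atTop, ∀ i ∈ Finset.range N, c j ≠ i :=
    (Finset.eventually_all _).2 fun i _ => not_frequently.1 (h i)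
  filter_upwards [this] with j hj
  by_contra hc
  exact hj (c j) (Finset.mem_range.2 (not_le.1 hc)) rfl

theorem isSeqClosed_range : IsSeqClosed (range e) := by
  intro w g hw hg
  choose c hc using hw
  by_cases h1 : ∃ i, ∃ᶠ j in atTop, c j = i
  · obtain ⟨i, hi⟩ := h1
    refine ⟨i, tendsto_nhds_unique_of_frequently_eq tendsto_const_nhds hg ?_⟩
    exact hi.mono fun j hj => by rw [← hc j, hj]
  exfalso
  have hc1 : Tendsto c atTop atTop := tendsto_of_not_freq (not_exists.1 h1)
  have hg1 : g = 1 := by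
    apply eq_one_of_ch
    intro s
    refine tendsto_nhds_unique (((continuous_ch_half s).tendsto g).comp hg) ?_
    refine tendsto_const_nhds.congr' ?_
    filter_upwards [hc1.eventually (eventually_ge_atTop s)] with j hj
    simp only [Function.comp, ← hc j, e]
    have := le_L (c j)
    rw [ch_mul, ch_half_pw s _ (by omega), ch_half_pw s _ (by omega), add_zero]
  subst hg1
  by_cases h2 : ∃ n, ∃ᶠ j in atTop, lv (c j) = n
  · obtain ⟨n, hn⟩ := h2
    refine not_far (continuous_typeI n) hg (hn.mono fun j hj => ?_)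
    rw [← hc j]
    exact far_typeI n _ hj
  · have hc2 : Tendsto (fun j => lv (c j)) atTop atTop := tendsto_of_not_freq (not_exists.1 h2)
    have hI : ∀ N : ℕ, ∀ᶠ i in atTop, i ∈ range c → N ≤ lv i := by
      intro N
      obtain ⟨J, hJ⟩ := eventually_atTop.1 (hc2.eventually (eventually_ge_atTop N))
      filter_upwards [eventually_gt_atTop ((Finset.range J).sup c)] with i hi
      rintro ⟨j, rfl⟩
      apply hJ
      by_contra hj
      exact absurd (Finset.le_sup (f := c) (Finset.mem_range.2 (not_le.1 hj))) (not_le.2 hi)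
    refine not_far (continuous_typeII _ hI) hg (Frequently.of_forall fun j => ?_)
    rw [← hc j]
    exact far_typeII _ _ ⟨j, rfl⟩

theorem one_mem_closure : (1 : G) ∈ closure (range e) := by
  rw [mem_closure_iff_nhds]
  intro W hW
  obtain ⟨V, hV, hVW⟩ := exists_nhds_one_split hW
  have h1 : ∃ N, ∀ i, lv i = N → pw (L i + 2 * i + 4) ∈ V := by
    by_contra hcon
    push Not at hcon
    choose σ hσ hσ' using hcon
    have hmem : (fun j => pw (L (σ j) + 2 * σ j + 4)) ∈ S :=
      Or.inr ⟨σ, by simp only [hσ]; exact tendsto_id, rfl⟩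
    obtain ⟨j, hj⟩ := ((tendsto_tauS hmem).eventually hV).exists
    exact hσ' j hj
  obtain ⟨N, hN⟩ := h1
  have h2 : Tendsto (fun i => pw (L i)) atTop (𝓝 (1 : G)) := tendsto_tauS (Or.inl rfl)
  have h3 := h2.pow (2 ^ N)
  rw [one_pow] at h3
  have h4 : Tendsto (fun m => Nat.pair N m) atTop atTop :=
    tendsto_atTop_mono (fun m => Nat.right_le_pair N m) tendsto_id
  obtain ⟨m, hm⟩ := ((h3.comp h4).eventually hV).exists
  have hl : lv (Nat.pair N m) = N := by simp [lv]
  refine ⟨e (Nat.pair N m), ?_, _, rfl⟩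
  unfold e
  apply hVW _ _ _ (hN _ hl)
  rw [hl, pw_add]
  exact hm

theorem one_not_mem : (1 : G) ∉ range e := by
  rintro ⟨i, hi⟩
  have := congrArg toZ hi
  rw [e, toZ_mul, toZ_pw, toZ_pw, toZ_one] at this
  have h1 : (0 : ℤ) < 2 ^ (L i + lv i) := by positivity
  have h2 : (0 : ℤ) < 2 ^ (L i + 2 * i + 4) := by positivity
  omega

theorem not_sequential : ¬ SequentialSpace G := fun h =>
  one_not_mem ((h.isClosed_of_seq _ isSeqClosed_range).closure_subset one_mem_closure)

theorem finiteIndex_of_ne_bot (K : Subgroup G) (hK : K ≠ ⊥) : K.FiniteIndex := by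
  obtain ⟨⟨g, hg⟩, hg1⟩ := Subgroup.ne_bot_iff_exists_ne_one.1 hK
  have hg0 : toZ g ≠ 0 := fun h => hg1 (Subtype.ext (toZ_inj h))
  have hz : ∀ (x : G) (m : ℤ), toZ (x ^ m) = m * toZ x := by
    intro x m
    exact (toAdd_zpow (α := ℤ) x m).trans (smul_eq_mul _ _)
  have : Finite (G ⧸ K) := by
    refine Finite.of_surjective
      (fun r : Set.Ico (0 : ℤ) |toZ g| =>
        (QuotientGroup.mk (Multiplicative.ofAdd (r : ℤ) : Multiplicative ℤ) : G ⧸ K)) ?_
    intro q
    obtain ⟨x, rfl⟩ := QuotientGroup.mk_surjective q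
    refine ⟨⟨toZ x % toZ g, Int.emod_nonneg _ hg0, Int.emod_lt_abs _ hg0⟩, ?_⟩
    apply QuotientGroup.eq.2
    have h1 := K.zpow_mem hg (toZ x / toZ g)
    convert h1 using 1
    apply toZ_inj
    rw [hz]
    show -(toZ x % toZ g) + toZ x = _
    have := Int.emod_add_mul_ediv (toZ x) (toZ g)
    linarith
  exact Subgroup.finiteIndex_of_finite_quotient

end Pool.Agent.H425Z.SG
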