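import Mathlib

set_option autoImplicit false

open Filter Topology Set

namespace Pool.Agent.H425Z.SR

/-- Points: a column index (`none` is the point at infinity of the row) and a level
(`none` is the top level). -/
def X : Type := Option ℝ × Option ℕ

/-- The admissible test functions. -/
def F : Set (X → ℝ) :=
  {f | (∀ (n : ℕ) (e : ℕ → ℝ), Function.Injective e →
          Tendsto (fun k => f ((some (e k), some n) : Option ℝ × Option ℕ)) atTop
            (𝓝 (f ((none, some n) : Option ℝ × Option ℕ)))) ∧
       (∀ o : Option ℝ,
          Tendsto (fun n : ℕ => f ((o, some n) : Option ℝ × Option ℕ)) atTop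
            (𝓝 (f ((o, none) : Option ℝ × Option ℕ))))}

instance topX : TopologicalSpace X :=
  ⨅ f : F, TopologicalSpace.induced (f : X → ℝ) inferInstance

theorem tendsto_iff {α : Type*} (l : Filter α) (u : α → X) (x : X) :
    Tendsto u l (𝓝 x) ↔ ∀ f ∈ F, Tendsto (fun a => f (u a)) l (𝓝 (f x)) := by
  have : (𝓝 x : Filter X) = ⨅ f : F, comap (f : X → ℝ) (𝓝 ((f : X → ℝ) x)) := by
    show @nhds X (⨅ f : F, TopologicalSpace.induced (f : X → ℝ) inferInstance) x = _
    rw [nhds_iInf]
    simp only [nhds_induced]
  rw [this, tendsto_iInf]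
  simp only [tendsto_comap_iff, Subtype.forall]
  rfl

theorem continuous_of_mem {f : X → ℝ} (hf : f ∈ F) : Continuous f := by
  rw [continuous_iff_continuousAt]
  intro x
  exact (tendsto_iff (𝓝 x) id x).1 tendsto_id f hf

theorem mem_of_seqContinuous {f : X → ℝ} (hf : SeqContinuous f) : f ∈ F := by
  refine ⟨fun n e he => ?_, fun o => ?_⟩
  · have : @Tendsto ℕ X (fun k => (some (e k), some n)) atTop (@nhds X _ (none, some n)) :=
      (tendsto_iff _ _ _).2 fun g hg => hg.1 n e he
    exact hf this
  · have : @Tendsto ℕ X (fun n : ℕ => (o, some n)) atTop (@nhds X _ (o, none)) :=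
      (tendsto_iff _ _ _).2 fun g hg => hg.2 o
    exact hf this

open Classical in
/-- indicator of a finite level -/
noncomputable def lev (n : ℕ) : X → ℝ := fun x => if x.2 = some n then 1 else 0

theorem lev_mem (n : ℕ) : lev n ∈ F := by
  refine ⟨fun m e _ => ?_, fun o => ?_⟩
  · simp only [lev]
    exact tendsto_const_nhds
  · simp only [lev, reduceCtorEq, if_false]
    refine tendsto_const_nhds.congr' ?_
    filter_upwards [eventually_gt_atTop n] with m hm
    rw [if_neg]
    intro h
    exact hm.ne' (Option.some.inj h)

open Classical in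
/-- indicator of a column -/
noncomputable def col (d : ℝ) : X → ℝ := fun x => if x.1 = some d then 1 else 0

theorem eventually_ne_of_injective {e : ℕ → ℝ} (he : Function.Injective e) (d : ℝ) :
    ∀ᶠ k in atTop, e k ≠ d := by
  have : (e ⁻¹' {d}).Finite := (finite_singleton d).preimage he.injOn
  rw [← Nat.cofinite_eq_atTop]
  exact this.compl_mem_cofinite

theorem col_mem (d : ℝ) : col d ∈ F := by
  refine ⟨fun m e he => ?_, fun o => ?_⟩
  · simp only [col, reduceCtorEq, if_false]
    refine tendsto_const_nhds.congr' ?_
    filter_upwards [eventually_ne_of_injective he d] with k hk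
    rw [if_neg]
    intro h
    exact hk (Option.some.inj h)
  · simp only [col]
    exact tendsto_const_nhds

open Classical in
/-- staircase indicator attached to a sequence of columns -/
noncomputable def stair (d : ℕ → ℝ) : X → ℝ := fun x =>
  if ∃ k, x.1 = some (d k) ∧ ∀ m, x.2 = some m → k ≤ m then 1 else 0

theorem stair_mem (d : ℕ → ℝ) : stair d ∈ F := by
  refine ⟨fun m e he => ?_, fun o => ?_⟩
  · have h0 : stair d ((none, some m) : Option ℝ × Option ℕ) = 0 := by
      simp [stair]
    rw [h0]
    refine tendsto_const_nhds.congr' ?_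
    have : ∀ᶠ j in atTop, ∀ k ∈ Finset.range (m + 1), e j ≠ d k :=
      (Finset.eventually_all _).2 fun k _ => eventually_ne_of_injective he (d k)
    filter_upwards [this] with j hj
    simp only [stair]
    rw [if_neg]
    rintro ⟨k, hk, hk2⟩
    exact hj k (Finset.mem_range.2 (Nat.lt_succ_of_le (hk2 m rfl))) (Option.some.inj hk)
  · by_cases h : ∃ k, o = some (d k)
    · obtain ⟨k, hk⟩ := h
      have h1 : stair d ((o, none) : Option ℝ × Option ℕ) = 1 := by
        simp only [stair]
        rw [if_pos]
        exact ⟨k, hk, fun m hm => by cases hm⟩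
      rw [h1]
      refine tendsto_const_nhds.congr' ?_
      filter_upwards [eventually_ge_atTop k] with m hm
      simp only [stair]
      rw [if_pos]
      exact ⟨k, hk, fun m' hm' => by cases hm'; exact hm⟩
    · have h1 : ∀ l : Option ℕ, stair d ((o, l) : Option ℝ × Option ℕ) = 0 := by
        intro l
        simp only [stair]
        rw [if_neg]
        rintro ⟨k, hk, _⟩
        exact h ⟨k, hk⟩
      simp only [h1]
      exact tendsto_const_nhds

instance : CompletelyRegularSpace X :=
  completelyRegularSpace_iInf fun _ => completelyRegularSpace_induced inferInstance _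

theorem exists_sep {x y : X} (h : x ≠ y) : ∃ f ∈ F, f x ≠ f y := by
  obtain ⟨a, l⟩ := x
  obtain ⟨b, m⟩ := y
  by_cases hl : l = m
  · subst hl
    have hab : a ≠ b := fun h' => h (by rw [h'])
    cases a with
    | none =>
      cases b with
      | none => exact absurd rfl hab
      | some d => exact ⟨col d, col_mem d, by simp [col]⟩
    | some d =>
      refine ⟨col d, col_mem d, ?_⟩
      simp only [col, if_true]
      rw [if_neg (fun h' => hab h'.symm)]
      norm_num
  · cases l with
    | none =>
      cases m with
      | none => exact absurd rfl hl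
      | some n => exact ⟨lev n, lev_mem n, by simp [lev]⟩
    | some n =>
      refine ⟨lev n, lev_mem n, ?_⟩
      simp only [lev, if_true]
      rw [if_neg (fun h' => hl h'.symm)]
      norm_num

instance : T0Space X := by
  rw [t0Space_iff_inseparable]
  intro x y hxy
  by_contra h
  obtain ⟨f, hf, hne⟩ := exists_sep h
  exact hne (hxy.map (continuous_of_mem hf)).eq

instance : T35Space X where

/-- the top row without its corner -/
def T : Set X := {x | ∃ d : ℝ, x = ((some d, none) : Option ℝ × Option ℕ)}

theorem isSeqClosed_T : IsSeqClosed T := by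
  intro u x hu hx
  choose d hd using hu
  obtain ⟨o, l⟩ := x
  rw [tendsto_iff] at hx
  cases l with
  | some n =>
    exfalso
    have h := hx _ (lev_mem n)
    simp only [hd, lev, reduceCtorEq, if_false, if_true] at h
    exact zero_ne_one (tendsto_nhds_unique tendsto_const_nhds h)
  | none =>
    cases o with
    | some e => exact ⟨e, rfl⟩
    | none =>
      exfalso
      have h := hx _ (stair_mem d)
      have h0 : stair d ((none, none) : Option ℝ × Option ℕ) = 0 := by simp [stair]
      have h1 : ∀ k, stair d (u k) = 1 := by
        intro k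
        rw [hd k]
        simp only [stair]
        rw [if_pos]
        exact ⟨k, rfl, fun m hm => by cases hm⟩
      simp only [h1] at h
      rw [h0] at h
      exact one_ne_zero (tendsto_nhds_unique tendsto_const_nhds h)

theorem countable_ne_row {f : X → ℝ} (hf : f ∈ F) (n : ℕ) :
    {d : ℝ | f ((some d, some n) : Option ℝ × Option ℕ) ≠
      f ((none, some n) : Option ℝ × Option ℕ)}.Countable := by
  have key : ∀ j : ℕ, {d : ℝ | 1 / ((j : ℝ) + 1) ≤ |f ((some d, some n) : Option ℝ × Option ℕ) -
      f ((none, some n) : Option ℝ × Option ℕ)|}.Finite := by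
    intro j
    by_contra hinf
    have hinf' : Set.Infinite _ := hinf
    let e := hinf'.natEmbedding
    have he : Function.Injective (fun k => (e k : ℝ)) :=
      Subtype.val_injective.comp e.injective
    have h := hf.1 n _ he
    have hpos : (0 : ℝ) < 1 / ((j : ℝ) + 1) := by positivity
    have := (Metric.tendsto_nhds.1 h) _ hpos
    obtain ⟨k, hk⟩ := this.exists
    have h2 := (e k).2
    rw [Real.dist_eq] at hk
    exact absurd hk (not_lt.2 h2)
  refine (Set.countable_iUnion fun j => (key j).countable).mono ?_
  intro d hd
  have : 0 < |f ((some d, some n) : Option ℝ × Option ℕ) -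
      f ((none, some n) : Option ℝ × Option ℕ)| := abs_pos.2 (sub_ne_zero.2 hd)
  obtain ⟨j, hj⟩ := exists_nat_one_div_lt this
  exact Set.mem_iUnion.2 ⟨j, hj.le⟩

theorem tendsto_corner :
    @Tendsto ℝ X (fun d : ℝ => (some d, none)) (cocountable : Filter ℝ)
      (@nhds X _ (none, none)) := by
  rw [tendsto_iff]
  intro f hf
  refine tendsto_const_nhds.congr' ?_
  have hc := Set.countable_iUnion fun n => countable_ne_row hf n
  have : (⋃ n : ℕ, {d : ℝ | f ((some d, some n) : Option ℝ × Option ℕ) ≠
      f ((none, some n) : Option ℝ × Option ℕ)})ᶜ ∈ (cocountable : Filter ℝ) := by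
    rw [mem_cocountable, compl_compl]
    exact hc
  filter_upwards [this] with d hd
  simp only [Set.mem_compl_iff, Set.mem_iUnion, Set.mem_setOf_eq, not_exists, not_not] at hd
  have h1 := hf.2 (some d)
  have h2 := hf.2 none
  simp only [hd] at h1
  exact tendsto_nhds_unique h2 h1

theorem not_isClosed_T : ¬ IsClosed T := by
  intro h
  have hne : (cocountable : Filter ℝ).NeBot := by
    rw [← forall_mem_nonempty_iff_neBot]
    intro s hs
    rw [mem_cocountable] at hs
    by_contra h'
    rw [Set.not_nonempty_iff_eq_empty] at h'
    rw [h', Set.compl_empty] at hs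
    exact Set.not_countable_univ hs
  have := h.mem_of_tendsto tendsto_corner (Eventually.of_forall fun d => ⟨d, rfl⟩)
  obtain ⟨d, hd⟩ := this
  cases hd

theorem not_sequential : ¬ SequentialSpace X := fun h =>
  not_isClosed_T (h.isClosed_of_seq _ isSeqClosed_T)

/-- Every sequentially continuous map from `X` to a completely regular space is continuous. -/
theorem continuous_of_seqContinuous {Z : Type*} [TopologicalSpace Z] [CompletelyRegularSpace Z]
    {g : X → Z} (hg : SeqContinuous g) : Continuous g := by
  rw [continuous_def]
  intro U hU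
  rw [isOpen_iff_mem_nhds]
  intro x hx
  obtain ⟨φ, hφ, h0, h1⟩ := CompletelyRegularSpace.completely_regular_isOpen (g x) U hU hx
  have hs : SeqContinuous (fun y => ((φ (g y) : unitInterval) : ℝ)) := by
    intro u y hu
    exact ((continuous_subtype_val.comp hφ).tendsto (g y)).comp (hg hu)
  have hc := continuous_of_mem (mem_of_seqContinuous hs)
  have hlt : ((φ (g x) : unitInterval) : ℝ) < 1 := by rw [h0]; norm_num
  have := hc.continuousAt.eventually_lt (continuousAt_const (y := (1 : ℝ))) hlt
  filter_upwards [this] with y hy
  by_contra hn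
  have := h1 (show g y ∈ Uᶜ from hn)
  rw [this] at hy
  simp at hy

end Pool.Agent.H425Z.SR
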